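import Mathlib

/-!
Project RF (MP_c98eff_gt, n = 3), base file for the parts D5 (local Myers theorem without
geodesics) and F (developing map and volume).

Model: the sphere is the quotient of the nonzero quaternions by positive dilations; a function on
the sphere is a 0-homogeneous function on the quaternions.  Tangent vectors at x are vectors
v in W = R^3, representing the class of x * iot v.
-/

open Quaternion

namespace Pool.Agent.Helper64.RF

/-- The model tangent space. -/
abbrev W : Type := Fin 3 → ℝ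

/-- Imaginary quaternion with coordinates `v`. -/
noncomputable def iot (v : W) : ℍ[ℝ] := ⟨0, v 0, v 1, v 2⟩

/-- Imaginary part of a quaternion. -/
noncomputable def im (q : ℍ[ℝ]) : W := ![q.imI, q.imJ, q.imK]

/-- Euclidean square norm on `W`. -/
noncomputable def sq (v : W) : ℝ := v 0 ^ 2 + v 1 ^ 2 + v 2 ^ 2

/-- The bracket `[a,b]` of imaginary quaternions (twice the cross product). -/
noncomputable def br (a b : W) : W := im (iot a * iot b - iot b * iot a)

variable {F : Type*} [NormedAddCommGroup F] [NormedSpace ℝ F]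

/-- Smooth functions on the sphere: 0-homogeneous and smooth away from 0. -/
def SS (f : ℍ[ℝ] → F) : Prop :=
  (∀ r : ℝ, 0 < r → ∀ x : ℍ[ℝ], f (r • x) = f x) ∧
    ∀ x : ℍ[ℝ], x ≠ 0 → ContDiffAt ℝ (⊤ : ℕ∞) f x

/-- The left invariant vector field `E_v` (v in W) applied to `f`. -/
noncomputable def Ed (v : W) (f : ℍ[ℝ] → F) (x : ℍ[ℝ]) : F := fderiv ℝ f x (x * iot v)

/-- A smooth Riemannian metric in the left invariant frame. -/
structure Met (g : ℍ[ℝ] → W →L[ℝ] W →L[ℝ] ℝ) : Prop where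
  smooth : SS g
  symm : ∀ x a b, g x a b = g x b a
  pos : ∀ x, x ≠ 0 → ∀ a, a ≠ 0 → 0 < g x a a

/-- `G` is the Levi-Civita connection of `g`: `D_v a = G x v a` for constant vectors. -/
structure LC (g : ℍ[ℝ] → W →L[ℝ] W →L[ℝ] ℝ) (G : ℍ[ℝ] → W →L[ℝ] W →L[ℝ] W) : Prop where
  smooth : SS G
  metric : ∀ x, x ≠ 0 → ∀ v a b, Ed v g x a b = g x (G x v a) b + g x a (G x v b)
  torsion : ∀ x, x ≠ 0 → ∀ v a, G x v a - G x a v = br v a

/-- The curvature `R(u,v)z = D_u D_v z - D_v D_u z - D_[u,v] z`. -/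
noncomputable def Rm (G : ℍ[ℝ] → W →L[ℝ] W →L[ℝ] W) (x : ℍ[ℝ]) (u v z : W) : W :=
  Ed u G x v z - Ed v G x u z + G x u (G x v z) - G x v (G x u z) - G x (br u v) z

/-- Curves of class C^1 in the punctured quaternions. -/
def C1 (c : ℝ → ℍ[ℝ]) : Prop := ContDiff ℝ 1 c ∧ ∀ t, c t ≠ 0

/-- The velocity of a curve in the left invariant frame. -/
noncomputable def vel (c : ℝ → ℍ[ℝ]) (t : ℝ) : W := im ((c t)⁻¹ * deriv c t)

/-- The energy of a curve. -/
noncomputable def En (g : ℍ[ℝ] → W →L[ℝ] W →L[ℝ] ℝ) (c : ℝ → ℍ[ℝ]) : ℝ :=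
  ∫ t in (0:ℝ)..1, g (c t) (vel c t) (vel c t)

end Pool.Agent.Helper64.RF
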