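import Pool.Agent.Helper64.RF.Base

/-!
Basic facts on 0-homogeneous functions, the frame derivatives `Ed` and the imaginary quaternions.
-/

open Quaternion

namespace Pool.Agent.Helper64.RF

/-! ### Imaginary quaternions -/

@[simp] theorem iot_re (v : W) : (iot v).re = 0 := rfl
@[simp] theorem iot_imI (v : W) : (iot v).imI = v 0 := rfl
@[simp] theorem iot_imJ (v : W) : (iot v).imJ = v 1 := rfl
@[simp] theorem iot_imK (v : W) : (iot v).imK = v 2 := rfl

@[simp] theorem im_iot (v : W) : im (iot v) = v := by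
  funext i; fin_cases i <;> rfl

@[simp] theorem iot_add (v w : W) : iot (v + w) = iot v + iot w := by
  ext <;> simp

@[simp] theorem iot_sub (v w : W) : iot (v - w) = iot v - iot w := by
  ext <;> simp

@[simp] theorem iot_neg (v : W) : iot (-v) = - iot v := by
  ext <;> simp

@[simp] theorem iot_smul (r : ℝ) (v : W) : iot (r • v) = r • iot v := by
  ext <;> simp

@[simp] theorem iot_zero : iot (0 : W) = 0 := by
  ext <;> simp

@[simp] theorem im_add (p q : ℍ[ℝ]) : im (p + q) = im p + im q := by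
  funext i; fin_cases i <;> simp [im]

@[simp] theorem im_sub (p q : ℍ[ℝ]) : im (p - q) = im p - im q := by
  funext i; fin_cases i <;> simp [im]

@[simp] theorem im_neg (p : ℍ[ℝ]) : im (-p) = - im p := by
  funext i; fin_cases i <;> simp [im]

@[simp] theorem im_smul (r : ℝ) (p : ℍ[ℝ]) : im (r • p) = r • im p := by
  funext i; fin_cases i <;> simp [im]

@[simp] theorem im_coe (r : ℝ) : im (r : ℍ[ℝ]) = 0 := by
  funext i; fin_cases i <;> simp [im]

@[simp] theorem im_zero : im (0 : ℍ[ℝ]) = 0 := by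
  funext i; fin_cases i <;> simp [im]

theorem re_add_iot_im (q : ℍ[ℝ]) : (q.re : ℍ[ℝ]) + iot (im q) = q := by
  ext <;> simp [im]

theorem iot_im (q : ℍ[ℝ]) (h : q.re = 0) : iot (im q) = q := by
  have := re_add_iot_im q
  rw [h] at this
  simpa using this

/-- `iot` as a continuous linear map. -/
noncomputable def iotL : W →L[ℝ] ℍ[ℝ] :=
  LinearMap.toContinuousLinearMap
    { toFun := iot, map_add' := iot_add, map_smul' := iot_smul }

@[simp] theorem iotL_apply (v : W) : iotL v = iot v := rfl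

/-- `im` as a continuous linear map. -/
noncomputable def imL : ℍ[ℝ] →L[ℝ] W :=
  LinearMap.toContinuousLinearMap
    { toFun := im, map_add' := im_add, map_smul' := im_smul }

@[simp] theorem imL_apply (q : ℍ[ℝ]) : imL q = im q := rfl

theorem br_eq (a b : W) : br a b =
    ![2 * (a 1 * b 2 - a 2 * b 1), 2 * (a 2 * b 0 - a 0 * b 2), 2 * (a 0 * b 1 - a 1 * b 0)] := by
  funext i; fin_cases i <;> simp [br, im] <;> ring

theorem br_add_left (a b c : W) : br (a + b) c = br a c + br b c := by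
  simp only [br, iot_add, add_mul, mul_add, im_sub, im_add]; abel

theorem br_add_right (a b c : W) : br a (b + c) = br a b + br a c := by
  simp only [br, iot_add, add_mul, mul_add, im_sub, im_add]; abel

theorem br_smul_left (r : ℝ) (a b : W) : br (r • a) b = r • br a b := by
  simp only [br, iot_smul, smul_mul_assoc, mul_smul_comm, im_sub, im_smul, smul_sub]

theorem br_smul_right (r : ℝ) (a b : W) : br a (r • b) = r • br a b := by
  simp only [br, iot_smul, smul_mul_assoc, mul_smul_comm, im_sub, im_smul, smul_sub]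

theorem br_neg_left (a b : W) : br (-a) b = - br a b := by
  simp only [br, iot_neg, neg_mul, mul_neg, im_sub, im_neg]; abel

theorem br_neg_right (a b : W) : br a (-b) = - br a b := by
  simp only [br, iot_neg, neg_mul, mul_neg, im_sub, im_neg]; abel

theorem br_sub_left (a b c : W) : br (a - b) c = br a c - br b c := by
  simp only [br, iot_sub, sub_mul, mul_sub, im_sub]; abel

theorem br_sub_right (a b c : W) : br a (b - c) = br a b - br a c := by
  simp only [br, iot_sub, sub_mul, mul_sub, im_sub]; abel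

theorem br_swap (a b : W) : br b a = - br a b := by
  simp only [br, im_sub]; abel

@[simp] theorem br_self (a : W) : br a a = 0 := by
  simp [br]

/-- The imaginary part of a commutator is the bracket of the imaginary parts. -/
theorem im_comm (p q : ℍ[ℝ]) : im (p * q - q * p) = br (im p) (im q) := by
  rw [br_eq]
  funext i; fin_cases i <;> simp [im] <;> ring

/-- Conjugation kills the real part. -/
theorem im_conj (b q : ℍ[ℝ]) (hb : b ≠ 0) : im (b⁻¹ * q * b) = im (b⁻¹ * iot (im q) * b) := by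
  conv_lhs => rw [← re_add_iot_im q]
  rw [mul_add, add_mul, im_add, mul_assoc b⁻¹ (q.re : ℍ[ℝ]) b, Quaternion.coe_commutes,
    ← mul_assoc, inv_mul_cancel₀ hb, one_mul]
  simp

theorem norm_sq_eq (q : ℍ[ℝ]) : ‖q‖ ^ 2 = q.re ^ 2 + sq (im q) := by
  rw [sq, ← sq_abs, abs_norm, pow_two, ← Quaternion.normSq_eq_norm_mul_self, Quaternion.normSq_def']
  simp [im]; ring

theorem norm_iot_sq (v : W) : ‖iot v‖ ^ 2 = sq v := by
  rw [norm_sq_eq]; simp

theorem sq_nonneg' (v : W) : 0 ≤ sq v := by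
  unfold sq; positivity

theorem sq_eq_zero' {v : W} (h : sq v = 0) : v = 0 := by
  have h1 : ‖iot v‖ ^ 2 = 0 := by rw [norm_iot_sq, h]
  have h2 : iot v = 0 := by
    rw [← norm_eq_zero]; exact pow_eq_zero_iff (two_ne_zero) |>.mp h1
  have h3 := congrArg im h2
  simpa using h3

theorem norm_sq_le_sq (v : W) : ‖v‖ ^ 2 ≤ sq v := by
  have h : ‖v‖ ≤ Real.sqrt (sq v) := by
    rw [pi_norm_le_iff_of_nonneg (Real.sqrt_nonneg _)]
    intro i
    rw [Real.norm_eq_abs]
    apply Real.abs_le_sqrt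
    unfold sq
    fin_cases i <;> simp <;> nlinarith [sq_nonneg (v 0), sq_nonneg (v 1), sq_nonneg (v 2)]
  calc ‖v‖ ^ 2 ≤ (Real.sqrt (sq v)) ^ 2 := by gcongr
    _ = sq v := Real.sq_sqrt (sq_nonneg' v)

theorem sq_le_norm_sq (v : W) : sq v ≤ 3 * ‖v‖ ^ 2 := by
  have h : ∀ i, v i ^ 2 ≤ ‖v‖ ^ 2 := by
    intro i
    rw [← sq_abs]
    have := norm_le_pi_norm v i
    rw [Real.norm_eq_abs] at this
    gcongr
  unfold sq
  linarith [h 0, h 1, h 2]

/-! ### Zero-homogeneous functions -/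

variable {F : Type*} [NormedAddCommGroup F] [NormedSpace ℝ F]

theorem SS.contDiffAt {f : ℍ[ℝ] → F} (h : SS f) {x : ℍ[ℝ]} (hx : x ≠ 0) :
    ContDiffAt ℝ (⊤ : ℕ∞) f x := h.2 x hx

theorem SS.differentiableAt {f : ℍ[ℝ] → F} (h : SS f) {x : ℍ[ℝ]} (hx : x ≠ 0) :
    DifferentiableAt ℝ f x := (h.2 x hx).differentiableAt (by simp)

theorem SS.continuousAt {f : ℍ[ℝ] → F} (h : SS f) {x : ℍ[ℝ]} (hx : x ≠ 0) :
    ContinuousAt f x := (h.2 x hx).continuousAt

theorem SS.continuousOn {f : ℍ[ℝ] → F} (h : SS f) : ContinuousOn f {0}ᶜ :=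
  fun _ hx => (h.continuousAt hx).continuousWithinAt

/-- Euler: the radial derivative vanishes. -/
theorem SS.euler {f : ℍ[ℝ] → F} (h : SS f) {x : ℍ[ℝ]} (hx : x ≠ 0) :
    fderiv ℝ f x x = 0 := by
  have h1 : HasDerivAt (fun t : ℝ => (1 + t) • x) x 0 := by
    have : HasDerivAt (fun t : ℝ => (1 + t)) 1 0 := by
      simpa using (hasDerivAt_id (0:ℝ)).const_add 1
    simpa using this.smul_const x
  have h2 : HasFDerivAt f (fderiv ℝ f x) ((1 + (0:ℝ)) • x) := by
    simpa using (h.differentiableAt hx).hasFDerivAt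
  have h3 : HasDerivAt (fun t : ℝ => f ((1 + t) • x)) (fderiv ℝ f x x) 0 :=
    h2.comp_hasDerivAt 0 h1
  have h4 : (fun t : ℝ => f ((1 + t) • x)) =ᶠ[nhds 0] fun _ => f x := by
    have : ∀ᶠ t : ℝ in nhds 0, 0 < 1 + t := by
      have := (isOpen_lt (continuous_const (y := (0:ℝ))) (continuous_const.add continuous_id)
        : IsOpen {t : ℝ | 0 < 1 + t}).mem_nhds (x := (0:ℝ)) (by simp)
      exact this
    filter_upwards [this] with t ht
    exact h.1 _ ht x
  have h5 : HasDerivAt (fun t : ℝ => f ((1 + t) • x)) 0 0 :=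
    (hasDerivAt_const (0:ℝ) (f x)).congr_of_eventuallyEq h4
  exact h3.unique h5

/-- The derivative in the direction `x * q` only sees the imaginary part of `q`. -/
theorem SS.fderiv_mul {f : ℍ[ℝ] → F} (h : SS f) {x : ℍ[ℝ]} (hx : x ≠ 0) (q : ℍ[ℝ]) :
    fderiv ℝ f x (x * q) = Ed (im q) f x := by
  conv_lhs => rw [← re_add_iot_im q, mul_add, map_add, ← Quaternion.coe_commutes,
    Quaternion.coe_mul_eq_smul, map_smul, h.euler hx, smul_zero, zero_add]
  rfl

/-- Derivative in an arbitrary direction. -/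
theorem SS.fderiv_apply {f : ℍ[ℝ] → F} (h : SS f) {x : ℍ[ℝ]} (hx : x ≠ 0) (y : ℍ[ℝ]) :
    fderiv ℝ f x y = Ed (im (x⁻¹ * y)) f x := by
  rw [← h.fderiv_mul hx, ← mul_assoc, mul_inv_cancel₀ hx, one_mul]

/-- Chain rule along curves. -/
theorem SS.chain {f : ℍ[ℝ] → F} (h : SS f) {c : ℝ → ℍ[ℝ]} {c' : ℍ[ℝ]} {t : ℝ}
    (hc : HasDerivAt c c' t) (h0 : c t ≠ 0) :
    HasDerivAt (fun s => f (c s)) (Ed (im ((c t)⁻¹ * c')) f (c t)) t := by
  rw [← h.fderiv_apply h0]
  exact (h.differentiableAt h0).hasFDerivAt.comp_hasDerivAt t hc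

/-- Chain rule for maps from a normed space. -/
theorem SS.chain_fderiv {V : Type*} [NormedAddCommGroup V] [NormedSpace ℝ V]
    {f : ℍ[ℝ] → F} (h : SS f) {X : V → ℍ[ℝ]} {X' : V →L[ℝ] ℍ[ℝ]} {p : V}
    (hX : HasFDerivAt X X' p) (h0 : X p ≠ 0) (a : V) :
    fderiv ℝ (fun s => f (X s)) p a = Ed (im ((X p)⁻¹ * X' a)) f (X p) := by
  have := ((h.differentiableAt h0).hasFDerivAt.comp p hX).fderiv
  have h2 : fderiv ℝ (fun s => f (X s)) p = (fderiv ℝ f (X p)).comp X' := this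
  rw [h2, ContinuousLinearMap.comp_apply, h.fderiv_apply h0]

theorem Ed_add (v w : W) (f : ℍ[ℝ] → F) (x : ℍ[ℝ]) : Ed (v + w) f x = Ed v f x + Ed w f x := by
  simp [Ed, mul_add]

theorem Ed_smul (r : ℝ) (v : W) (f : ℍ[ℝ] → F) (x : ℍ[ℝ]) : Ed (r • v) f x = r • Ed v f x := by
  simp [Ed]

theorem Ed_neg (v : W) (f : ℍ[ℝ] → F) (x : ℍ[ℝ]) : Ed (-v) f x = - Ed v f x := by
  simp [Ed]

theorem Ed_sub (v w : W) (f : ℍ[ℝ] → F) (x : ℍ[ℝ]) : Ed (v - w) f x = Ed v f x - Ed w f x := by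
  simp [Ed, mul_sub]

theorem Ed_zero (f : ℍ[ℝ] → F) (x : ℍ[ℝ]) : Ed (0 : W) f x = 0 := by
  simp [Ed]

theorem SS.ed {f : ℍ[ℝ] → F} (h : SS f) (v : W) : SS (Ed v f) := by
  constructor
  · intro r hr x
    have h1 : (fun y => f (r • y)) = f := by funext y; exact h.1 r hr y
    have h2 : fderiv ℝ f x = r • fderiv ℝ f (r • x) := by
      conv_lhs => rw [← h1]
      exact fderiv_comp_smul (𝕜 := ℝ) (f := f) (x := x) r
    unfold Ed
    rw [h2]
    simp
  · intro x hx
    have h1 : ContDiffAt ℝ (⊤ : ℕ∞) (fderiv ℝ f) x := (h.2 x hx).fderiv_right (by simp)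
    have h2 : ContDiffAt ℝ (⊤ : ℕ∞) (fun x : ℍ[ℝ] => x * iot v) x :=
      contDiffAt_id.mul contDiffAt_const
    exact h1.clm_apply h2

/-- Smooth functions on the sphere are bounded. -/
theorem SS.bdd {f : ℍ[ℝ] → F} (h : SS f) : ∃ C : ℝ, 0 ≤ C ∧ ∀ x, x ≠ 0 → ‖f x‖ ≤ C := by
  have hK : IsCompact (Metric.sphere (0 : ℍ[ℝ]) 1) := isCompact_sphere 0 1
  have hc : ContinuousOn f (Metric.sphere (0 : ℍ[ℝ]) 1) := by
    intro x hx
    apply (h.continuousAt _).continuousWithinAt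
    rintro rfl
    simp at hx
  obtain ⟨C, hC⟩ := hK.exists_bound_of_continuousOn hc
  refine ⟨max C 0, le_max_right _ _, ?_⟩
  intro x hx
  have hn : 0 < ‖x‖⁻¹ := inv_pos.mpr (norm_pos_iff.mpr hx)
  rw [← h.1 _ hn x]
  apply (hC _ _).trans (le_max_left _ _)
  simp [norm_smul, inv_mul_cancel₀ (norm_ne_zero_iff.mpr hx)]

/-- Pointwise operations. -/
theorem SS.comp_smooth {F' : Type*} [NormedAddCommGroup F'] [NormedSpace ℝ F']
    {f : ℍ[ℝ] → F} (h : SS f) {φ : F → F'}
    (hφ : ∀ x, x ≠ 0 → ContDiffAt ℝ (⊤ : ℕ∞) φ (f x)) : SS (fun x => φ (f x)) := by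
  refine ⟨fun r hr x => by simp only [h.1 r hr x], fun x hx => ?_⟩
  exact (hφ x hx).comp x (h.2 x hx)

/-- Uniform comparison of a metric with the round one. -/
theorem Met.bounds {g : ℍ[ℝ] → W →L[ℝ] W →L[ℝ] ℝ} (hg : Met g) :
    ∃ c : ℝ, 0 < c ∧ ∃ C : ℝ, 0 < C ∧ ∀ x, x ≠ 0 → ∀ v : W,
      c * sq v ≤ g x v v ∧ g x v v ≤ C * sq v := by
  obtain ⟨B, hB0, hB⟩ := hg.smooth.bdd
  have hcs : Continuous sq := by unfold sq; fun_prop
  have hup : ∀ x, x ≠ 0 → ∀ v : W, g x v v ≤ (B + 1) * sq v := by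
    intro x hx v
    have h1 : g x v v ≤ ‖g x‖ * ‖v‖ * ‖v‖ :=
      (le_abs_self _).trans ((g x).le_opNorm₂ v v)
    have h2 := norm_sq_le_sq v
    have h3 := sq_nonneg' v
    calc g x v v ≤ ‖g x‖ * ‖v‖ * ‖v‖ := h1
      _ = ‖g x‖ * ‖v‖ ^ 2 := by ring
      _ ≤ B * sq v := mul_le_mul (hB x hx) h2 (by positivity) hB0
      _ ≤ (B + 1) * sq v := by nlinarith
  let K : Set (ℍ[ℝ] × W) := Metric.sphere (0 : ℍ[ℝ]) 1 ×ˢ {v : W | sq v = 1}
  have hS : IsCompact {v : W | sq v = 1} := by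
    apply Metric.isCompact_of_isClosed_isBounded
    · exact isClosed_eq hcs continuous_const
    · apply (Metric.isBounded_closedBall (x := (0:W)) (r := 1)).subset
      intro v hv
      rw [mem_closedBall_zero_iff]
      have h2 := norm_sq_le_sq v
      have hv' : sq v = 1 := hv
      rw [hv'] at h2
      have := norm_nonneg v
      nlinarith
  have hK : IsCompact K := (isCompact_sphere 0 1).prod hS
  have hne : K.Nonempty := by
    refine ⟨(1, ![1,0,0]), ?_, ?_⟩
    · simp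
    · simp [sq]
  have hcont : ContinuousOn (fun p : ℍ[ℝ] × W => g p.1 p.2 p.2) K := by
    have h1 : ContinuousOn (fun p : ℍ[ℝ] × W => g p.1) K := by
      apply hg.smooth.continuousOn.comp continuous_fst.continuousOn
      intro p hp
      have : ‖p.1‖ = 1 := by simpa using hp.1
      intro h0
      rw [Set.mem_singleton_iff.mp h0] at this
      simp at this
    exact (h1.clm_apply continuous_snd.continuousOn).clm_apply continuous_snd.continuousOn
  obtain ⟨p, hp, hmin⟩ := hK.exists_isMinOn hne hcont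
  have hp1 : p.1 ≠ 0 := by
    have : ‖p.1‖ = 1 := by simpa using hp.1
    intro h0
    rw [h0] at this
    simp at this
  have hp2 : p.2 ≠ 0 := by
    have h : sq p.2 = 1 := hp.2
    intro h0
    rw [h0] at h
    simp [sq] at h
  have hpos := hg.pos p.1 hp1 p.2 hp2
  refine ⟨g p.1 p.2 p.2, hpos, B + 1, by linarith, fun x hx v => ⟨?_, hup x hx v⟩⟩
  by_cases hv : sq v = 0
  · rw [sq_eq_zero' hv]; simp [sq]
  have hv0 : 0 < sq v := lt_of_le_of_ne (sq_nonneg' v) (Ne.symm hv)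
  have hn : 0 < ‖x‖⁻¹ := inv_pos.mpr (norm_pos_iff.mpr hx)
  set r := (Real.sqrt (sq v))⁻¹ with hr
  have hr2 : r ^ 2 = (sq v)⁻¹ := by rw [hr, inv_pow, Real.sq_sqrt hv0.le]
  have hmem : ((‖x‖⁻¹ • x, r • v) : ℍ[ℝ] × W) ∈ K := by
    constructor
    · simp [norm_smul, inv_mul_cancel₀ (norm_ne_zero_iff.mpr hx)]
    · have : sq (r • v) = r ^ 2 * sq v := by simp [sq]; ring
      simp only [Set.mem_setOf_eq]
      rw [this, hr2, inv_mul_cancel₀ hv]
  have h := hmin hmem
  simp only [Set.mem_setOf_eq] at h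
  rw [hg.smooth.1 _ hn x] at h
  simp only [map_smul, ContinuousLinearMap.smul_apply, smul_eq_mul] at h
  have h' : g p.1 p.2 p.2 ≤ (sq v)⁻¹ * g x v v := by
    calc g p.1 p.2 p.2 ≤ r * (r * g x v v) := h
      _ = r ^ 2 * g x v v := by ring
      _ = _ := by rw [hr2]
  rw [inv_mul_eq_div, le_div_iff₀ hv0] at h'
  exact h'

end Pool.Agent.Helper64.RF
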