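import Pool.Agent.Helper64.RF.Basic

/-!
PROJECT RF, PART D5: local Myers theorem by second variation along almost minimizing C^1 curves
(no geodesics).  Every statement below is one packet.  Hypotheses of other packets may be used as
hypotheses of your theorem (`theorem thm (h1 : XStmt) ... : YStmt`).

Conventions (Base.lean, Basic.lean): W = Fin 3 → ℝ, `iot v` = imaginary quaternion, `im` =
imaginary part, `br a b = im (iot a * iot b - iot b * iot a)`, `SS f` = 0-homogeneous and smooth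
off 0, `Ed v f x = fderiv ℝ f x (x * iot v)`, `Met g`, `LC g G`, `Rm G x u v z`, `C1 c`, `vel c`,
`En g c`.  Basic.lean has: `SS.chain` (chain rule along curves), `SS.chain_fderiv`, `SS.ed`,
`SS.bdd`, `SS.fderiv_apply`, `Met.bounds` (c sq v ≤ g x v v ≤ C sq v), `im_conj`, `im_comm`,
`norm_sq_le_sq`, `sq_le_norm_sq`, linearity of `iot, im, br, Ed`.
-/

open Quaternion

namespace Pool.Agent.Helper64.RF

/-- **D5-LODE.** Global solutions of linear ODEs with continuous coefficients.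
Proof: Picard iteration `y_0 = y0`, `y_(n+1) t = y0 + ∫_0^t A s (y_n s)`.  On `[-T,T]` with
`‖A‖ ≤ M` one has `‖y_(n+1) t - y_n t‖ ≤ ‖y0‖ (M|t|)^(n+1)/(n+1)!` by induction, so the series
`y0 + Σ (y_(n+1) - y_n)` converges uniformly on `[-T,T]`; the limit is continuous and satisfies
`y t = y0 + ∫_0^t A s (y s)`; differentiate (`intervalIntegral.integral_hasDerivAt_right`).
(Any other proof is fine, e.g. Mathlib Picard-Lindelöf on short intervals plus a priori bound.) -/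
def LODE : Prop :=
  ∀ (E : Type) [NormedAddCommGroup E] [NormedSpace ℝ E] [CompleteSpace E]
    (A : ℝ → E →L[ℝ] E), Continuous A → ∀ y0 : E,
    ∃ y : ℝ → E, y 0 = y0 ∧ ∀ t, HasDerivAt y (A t (y t)) t

/-- **D5-CRV.** (1) any two nonzero quaternions are joined by a C^1 curve avoiding 0;
(2) the initial piece of a curve has smaller energy.
Proof. (1) If z is not in the real span of p, y (dimension 4 > 2: e.g. take z in the orthogonal
complement of the span) then `c t = (1-t) p + t y + t(1-t) z` never vanishes: `c t = 0` forces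
`t(1-t) = 0` (z independent of p,y), so t = 0 or 1 where c = p or y.
(2) `c_t s = c (t s)`: `vel c_t s = t vel c (t s)` (`deriv_comp_mul_left`, im linear), so
`En g c_t = t^2 ∫_0^1 g(v,v)(ts) ds = t ∫_0^t g(v,v) ≤ ∫_0^1 g(v,v)` since `0 ≤ t ≤ 1` and the
integrand is continuous and `≥ 0` (also for t = 0). -/
def CRV : Prop :=
  (∀ p y : ℍ[ℝ], p ≠ 0 → y ≠ 0 → ∃ c : ℝ → ℍ[ℝ], C1 c ∧ c 0 = p ∧ c 1 = y) ∧
  (∀ g, Met g → ∀ c, C1 c → ∀ t : ℝ, 0 ≤ t → t ≤ 1 →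
    C1 (fun s => c (t * s)) ∧ En g (fun s => c (t * s)) ≤ En g c)

/-- **D5-REP.** Almost minimizers of the energy have almost constant speed, in the weak form
needed.  Proof.  Put `f s = g (c s) (vel c s) (vel c s)` (continuous, `≥ 0`), `E = ∫_0^1 f`,
`u = sqrt θ ∈ (0,1]` and `φ t = t - (u/(4π)) sin (2π t)`.  Then φ is smooth, φ 0 = 0, φ 1 = 1,
`φ' t = 1 - (u/2) cos (2π t) ≥ 1/2`.  The curve `c ∘ φ` is C1 with the same end points, and
`vel (c∘φ) t = φ' t • vel c (φ t)`, so `En (c∘φ) = ∫_0^1 f(φ t) (φ' t) (φ' t) dt`.  As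
`|cos 2πt - cos 2πφ t| ≤ 2π |t - φ t| ≤ u/2`, we get `φ' t ≤ 1 - (u/2) cos (2π φ t) + u²/4`; hence
(substitution s = φ t, `intervalIntegral.integral_comp_mul_deriv`)
`En (c∘φ) ≤ ∫_0^1 f(s) (1 - (u/2) cos 2πs + u²/4) ds = E (1 + u²/4) - (u/2) ∫ f cos 2πs`.
By hypothesis `E - θ ≤ En (c∘φ)`: `(u/2) ∫ f cos ≤ θ + u² E/4`, i.e. with `θ = u²`:
`∫ f cos ≤ 2 u + u E/2`. -/
def REP : Prop :=
  ∀ g, Met g → ∀ c, C1 c → ∀ θ : ℝ, 0 < θ → θ ≤ 1 →
    (∀ c', C1 c' → c' 0 = c 0 → c' 1 = c 1 → En g c - θ ≤ En g c') →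
    ∫ s in (0:ℝ)..1, g (c s) (vel c s) (vel c s) * Real.cos (2 * Real.pi * s) ≤
      Real.sqrt θ * (2 + En g c / 2)

/-- The infimum of the energies of the curves from `p` to `y` (square of the distance). -/
noncomputable def eInf (g : ℍ[ℝ] → W →L[ℝ] W →L[ℝ] ℝ) (p y : ℍ[ℝ]) : ℝ :=
  sInf {e : ℝ | ∃ c, C1 c ∧ c 0 = p ∧ c 1 = y ∧ En g c = e}

/-- **D5-CONT.** `y ↦ eInf g p y` is continuous on the nonzero quaternions.
Proof.  Step 1: there is `C` with: for all `q` with `‖q - 1‖ ≤ 1/2` and every curve c from p to y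
there is a curve c' from p to y q with `En c' ≤ (1 + C‖q-1‖) En c + C ‖q-1‖`.
Take `c' t = c t * b t`, `b t = 1 + m t • (q - 1)`, `m t = sin² (π t / 2)` (so m 0 = 0, m 1 = 1,
0 ≤ m ≤ 1, |m'| ≤ 2, and b t ≠ 0 because ‖m (q-1)‖ ≤ 1/2).  Here
`vel c' t = im (b⁻¹ iot(vel c) b + b⁻¹ b')` (use `im_conj`).  With δ = ‖q-1‖: ‖b - 1‖ ≤ δ,
‖b⁻¹‖ ≤ 2, ‖b'‖ ≤ 2δ, so `‖vel c' - vel c‖ ≤ C1 δ (‖vel c‖ + 1)`.  Moreover
`‖g (x b) - g x‖ ≤ C2 ‖b - 1‖` for all x ≠ 0, ‖b-1‖ ≤ 1/2: by 0-homogeneity take ‖x‖ = 1; the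
segment from x to x b stays in the compact set 1/2 ≤ ‖z‖ ≤ 3/2, on which fderiv g is bounded
(or: derivative of s ↦ g(x(1+s(b-1))) is `Ed (im(..)) g`, bounded).  Hence pointwise
`g(c')(vel c',vel c') ≤ g(c)(vel c,vel c) + C3 δ (‖vel c‖² + 1) ≤ (1 + C4 δ) g(c)(vel c,vel c) + C4 δ`
(`Met.bounds`).  Integrate.
Step 2: hence `eInf p (y q) ≤ (1 + Cδ) eInf p y + C δ` (all energies are ≥ 0, the set of energies
is nonempty by CRV).  Applying it to `y q` and `q⁻¹` (‖q⁻¹ - 1‖ ≤ 2‖q-1‖ if ‖q-1‖ ≤ 1/2, restrict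
to ‖q-1‖ ≤ 1/4) gives `eInf p y ≤ (1 + 2Cδ) eInf p (yq) + 2Cδ`.  As y' → y means
`q = y⁻¹ y' → 1`, both inequalities give continuity. -/
def CONT : Prop :=
  ∀ g, Met g → ∀ p : ℍ[ℝ], p ≠ 0 → ContinuousOn (eInf g p) {0}ᶜ

/-- The multiplicative variation: `x * bb G x V u` replaces `exp_x(uV)` to second order. -/
noncomputable def bb (G : ℍ[ℝ] → W →L[ℝ] W →L[ℝ] W) (x : ℍ[ℝ]) (V : W) (u : ℝ) : ℍ[ℝ] :=
  1 + u • iot V - (u ^ 2 / 2) • iot (G x V V)

/-- The velocity of the varied curve, as a function of `x = c t`, `V = V t`, `v = vel c t`,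
`w = V' t`, `u`. -/
noncomputable def nuu (G : ℍ[ℝ] → W →L[ℝ] W →L[ℝ] W) (x : ℍ[ℝ]) (V v w : W) (u : ℝ) : W :=
  im ((bb G x V u)⁻¹ * iot v * bb G x V u +
    (bb G x V u)⁻¹ * (u • iot w - (u ^ 2 / 2) • iot (Ed v G x V V + G x w V + G x V w)))

/-- Energy density of the varied curve. -/
noncomputable def ph (g : ℍ[ℝ] → W →L[ℝ] W →L[ℝ] ℝ) (G : ℍ[ℝ] → W →L[ℝ] W →L[ℝ] W)
    (x : ℍ[ℝ]) (V v w : W) (u : ℝ) : ℝ :=
  g (x * bb G x V u) (nuu G x V v w u) (nuu G x V v w u)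

/-- **D5-ID2.** The second variation identity (pointwise).
Proof.  Fix x, V, v, w; b = bb(u) (b ≠ 0: its real part is 1), `β = b⁻¹ b'` (' = d/du),
`ξ(u) = im (b⁻¹ b')`, `ν = nuu(u)`.  Put `Γ = G x V V`, `Γd = Ed v G x V V + G x w V + G x V w`.
(a) b' = iot V - u iot Γ, b'' = - iot Γ, b(0) = 1; so ξ(0) = V and ξ'(0) = im(-b' b' + b'')(0)
    = im (-(iot V)²) - Γ = -Γ  (the square of an imaginary quaternion is real).
(b) ν(0) = v; with `a(u) = u iot w - (u²/2) iot Γd`, ν = im(b⁻¹ iot v b + b⁻¹ a):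
    ν'(0) = im(-iot V iot v + iot v iot V + iot w) = br v V + w.
    Second derivative at 0 (direct product rule with (b⁻¹)' = -b⁻¹ b' b⁻¹):
    ν''(0) = - Γd + br (w + br v V) V + br v (-Γ)
    (check: (b⁻¹)''(0) = 2 (iot V)² + iot Γ; ν'' = im( (b⁻¹)'' iot v + 2 (b⁻¹)' iot v b' + iot v b''
    + 2 (b⁻¹)' a' + b⁻¹ a'' ) at 0 with b' = iot V, b'' = -iot Γ, a' = iot w, a'' = -iot Γd; note
    `im(-2 iot V iot w) = -im(iot V iot w - iot w iot V) = br w V` because iot V iot w + iot w iot V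
    is real, and `2 V² v - 2 V v V` has imaginary part `br (br v V) V`, as V² is real.)
(c) For a curve u ↦ x b(u) one has d/du g(x b) (α,β) = (Ed ξ g)(α,β) + g(α',β) + g(α,β')
    (`SS.chain`), so by `LC.metric`, with `D ν := ν' + G (x b) ξ ν`:
    ph' = 2 g(Dν, ν), and ph'' (0) = 2 g(Dν,Dν) + 2 g(D(Dν), ν) at 0.
    Dν(0) = w + br v V + G x V v = w + G x v V  by torsion (G v V - G V v = br v V).
    D(Dν)(0) = ν''(0) + (Ed V G)(V, v) + G(ξ'(0), v) + G(V, ν'(0)) + G(V, Dν(0)).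
(d) Claim: D(Dν)(0) = Rm G x V v V.  Indeed insert (a),(b): with g-free algebra
    -(Ed v G)(V,V) - G(w,V) - G(V,w) + br(w,V) + br(br(v,V),V) - br(v,Γ) + (Ed V G)(V,v) - G(Γ,v)
    + G(V,w) + G(V,br(v,V)) + G(V,w) + G(V,G(v,V));
    use torsion: G(w,V) - G(V,w) = br(w,V);  G(Γ,v) + br(v,Γ) = G(v,Γ);
    G(V,br(v,V)) + br(br(v,V),V) = G(br(v,V),V) = -G(br(V,v),V);  and Ed V of the torsion identity:
    (Ed V G)(V,v) = (Ed V G)(v,V) (the difference is Ed V of the constant br V v; the torsion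
    identity holds on the open set of nonzero x).
    Result: (Ed V G)(v,V) - (Ed v G)(V,V) + G(V,G(v,V)) - G(v,G(V,V)) - G(br(V,v),V). -/
def ID2 : Prop :=
  ∀ g G, Met g → LC g G → ∀ (x : ℍ[ℝ]) (V v w : W), x ≠ 0 →
    deriv (deriv (ph g G x V v w)) 0 =
      2 * (g x (w + G x v V) (w + G x v V) + g x (Rm G x V v V) v)

/-- **D5-TAY.** Second differences of `ph` in `u`, uniformly.
Proof.  For fixed (x,V,u), `nuu` is linear in z = (v,w) (Ed v G x is linear in v), so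
`ph g G x V v w u = A (x,V,u) z z` with a bilinear form A(x,V,u) on W × W, and
`(x,V,u) ↦ A (x,V,u)` is smooth at every point with x ≠ 0 (bb ≠ 0, its real part is 1; x * bb ≠ 0;
g, G, Ed v G are SS), and 0-homogeneous in x.  Let A3 = third derivative in the direction
(0,0,1); it is continuous at points with x ≠ 0, hence bounded by some C on the compact set
‖x‖ = 1, ‖V‖ ≤ B, |u| ≤ 1, and by homogeneity for all x ≠ 0.  For a C^3 function φ on [-1,1] with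
|φ'''| ≤ K: |φ(u) + φ(-u) - 2φ(0) - u² φ''(0)| ≤ K |u|³/3 (Taylor with remainder twice).  Here
K ≤ C ‖z‖² ≤ C (‖v‖² + ‖w‖²).
(You may also use coordinates: A is a finite sum of smooth scalar functions times products of
coordinates of v, w.) -/
def TAY : Prop :=
  ∀ g G, Met g → LC g G → ∀ B : ℝ, ∃ C : ℝ, 0 ≤ C ∧
    ∀ (x : ℍ[ℝ]) (V v w : W) (u : ℝ), x ≠ 0 → ‖V‖ ≤ B → |u| ≤ 1 →
      |ph g G x V v w u + ph g G x V v w (-u) - 2 * ph g G x V v w 0
        - u ^ 2 * deriv (deriv (ph g G x V v w)) 0| ≤ C * |u| ^ 3 * (‖v‖ ^ 2 + ‖w‖ ^ 2)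

/-- The varied curve. -/
noncomputable def cvar (G : ℍ[ℝ] → W →L[ℝ] W →L[ℝ] W) (c : ℝ → ℍ[ℝ]) (V : ℝ → W) (u : ℝ) :
    ℝ → ℍ[ℝ] := fun t => c t * bb G (c t) (V t) u

/-- Covariant derivative of a field along a curve. -/
noncomputable def DV (G : ℍ[ℝ] → W →L[ℝ] W →L[ℝ] W) (c : ℝ → ℍ[ℝ]) (V : ℝ → W) (t : ℝ) : W :=
  deriv V t + G (c t) (vel c t) (V t)

/-- **D5-SV.** Second variation inequality.  Proof from ID2 and TAY.
`cvar` is C1 (G ∘ c is C^1 by SS and ContDiffAt.comp; bb ≠ 0).  By the product rule and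
`SS.chain` (derivative of G (c t) along c is Ed (vel c t) G (c t)) one has
`vel (cvar G c V u) t = nuu G (c t) (V t) (vel c t) (deriv V t) u`:
`(c b)⁻¹ (c b)' = b⁻¹ (c⁻¹ c') b + b⁻¹ b'` and `im_conj`.  So
`En g (cvar G c V u) = ∫ ph g G (c t) (V t) (vel c t) (V' t) u dt`, and `cvar G c V 0 = c`
(ph at u = 0 is g(v,v)).  Integrate TAY (with B) over [0,1] and insert ID2.  All functions of t
are continuous on ℝ (`vel c`, `deriv V` are continuous). -/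
def SV : Prop :=
  ∀ g G, Met g → LC g G → ∀ B : ℝ, ∃ C : ℝ, 0 ≤ C ∧
    ∀ (c : ℝ → ℍ[ℝ]) (V : ℝ → W), C1 c → ContDiff ℝ 1 V → (∀ t ∈ Set.Icc (0:ℝ) 1, ‖V t‖ ≤ B) →
      ∀ u : ℝ, |u| ≤ 1 → C1 (cvar G c V u) ∧
        |En g (cvar G c V u) + En g (cvar G c V (-u)) - 2 * En g c
          - 2 * u ^ 2 * ∫ t in (0:ℝ)..1, (g (c t) (DV G c V t) (DV G c V t)
              + g (c t) (Rm G (c t) (V t) (vel c t) (V t)) (vel c t))|
        ≤ C * |u| ^ 3 * ∫ t in (0:ℝ)..1, (‖vel c t‖ ^ 2 + ‖deriv V t‖ ^ 2)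

/-- Orthonormal triples for the metric at `x`. -/
def Orth (g : ℍ[ℝ] → W →L[ℝ] W →L[ℝ] ℝ) (x : ℍ[ℝ]) (b : Fin 3 → W) : Prop :=
  ∀ i j, g x (b i) (b j) = if i = j then 1 else 0

/-- **D5-PAR.** Parallel orthonormal frames along C^1 curves (from LODE).
Proof.  A t = -(G (c t) (vel c t) ·) : W →L W is continuous in t; solve e' = A e for the three
initial vectors of a g_(c 0)-orthonormal basis (Gram-Schmidt, or: the matrix M of g x in the
standard basis is positive definite, so M = Bᵀ B with B invertible and take the columns of B⁻¹).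
`e i` is C^1 as its derivative is continuous.  Orthonormality: by `SS.chain` and `LC.metric`
d/dt g(c)(e_i,e_j) = g(G v e_i, e_j) + g(e_i, G v e_j) + g(e_i', e_j) + g(e_i, e_j') = 0, so it is
constant. -/
def PAR : Prop :=
  ∀ g G, Met g → LC g G → ∀ c, C1 c → ∃ e : Fin 3 → ℝ → W,
    (∀ i, ContDiff ℝ 1 (e i)) ∧ (∀ i t, deriv (e i) t = - G (c t) (vel c t) (e i t)) ∧
    ∀ t, Orth g (c t) (fun i => e i t)

/-- Lower Ricci bound `Ric(v,v) ≥ lam g(v,v)` at the point `x`. -/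
def RicGe (g : ℍ[ℝ] → W →L[ℝ] W →L[ℝ] ℝ) (G : ℍ[ℝ] → W →L[ℝ] W →L[ℝ] W) (x : ℍ[ℝ])
    (lam : ℝ) : Prop :=
  ∀ b : Fin 3 → W, Orth g x b → ∀ v : W, lam * g x v v ≤ - ∑ i, g x (Rm G x (b i) v (b i)) v

/-- **D5-MYB.** The Myers estimate for the energy infimum.  Proof from CRV, REP, SV, PAR.
Let e = eInf g p y < r2 and suppose `δ = lam e - 3π² > 0`.  The constants below depend only on
g, G, r2, lam.  Let 0 < u ≤ 1 be small with u³ < r2 - e, θ = u³.  Choose a curve c from p to y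
with `En g c < e + θ` (≤ r2); every competitor has energy ≥ e > En g c - θ.
Let e_i be the parallel orthonormal frame along c (PAR), `V_i t = sin(π t) • e_i t`: C^1,
V_i 0 = V_i 1 = 0, ‖e_i‖ ≤ B (from c_g sq ≤ g = 1), so ‖V_i‖ ≤ B; DV_i = π cos(π t) • e_i;
‖V_i'‖ ≤ π B + C_G ‖vel c‖ B.  The curves cvar G c V_i (±u) have the same end points (bb = 1 when
V = 0), so energy ≥ e.  SV and summation over i give (all integrals over [0,1], v = vel c)
  -6 θ ≤ 2u² (∫ 3π² cos²(π t) + ∫ sin²(π t) Σ_i g(Rm(e_i,v) e_i, v)) + C u³ ∫ (‖v‖² + ‖V'‖²)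
       ≤ 2u² (3π²/2 - lam ∫ sin²(πt) g(v,v)) + C' u³ (1 + r2).
Here RicGe at c(t) for t in [0,1] comes from the hypothesis applied to the curve s ↦ c(t s)
(CRV (2): energy ≤ En g c ≤ r2), whose value at 1 is c t; and ∫‖v‖² ≤ C En g c.
By REP, ∫ sin² g(v,v) = En/2 - (1/2) ∫ cos(2πt) g(v,v) ≥ e/2 - sqrt θ (2 + (r2+1)/2)/2.  So
  -6 u³ ≤ u² (3π² - lam e + lam sqrt(u³) (2 + (r2+1)/2)) + C' u³ (1+r2);
divide by u² and use sqrt(u³) ≤ u: δ ≤ u (6 + lam (2 + (r2+1)/2) + C'(1+r2)) for all small u > 0: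
contradiction. -/
def MYB : Prop :=
  ∀ g G, Met g → LC g G → ∀ (lam r2 : ℝ) (p y : ℍ[ℝ]), 0 < lam → p ≠ 0 → y ≠ 0 →
    (∀ c, C1 c → c 0 = p → En g c ≤ r2 → RicGe g G (c 1) lam) →
    eInf g p y < r2 → eInf g p y ≤ 3 * Real.pi ^ 2 / lam

/-- **D5-MY.** Local Myers theorem.  Proof from CRV, CONT, MYB.  f = eInf g p is continuous on the
preconnected set {0}ᶜ of the quaternions (`isConnected_compl_singleton_of_one_lt_rank`), f p ≤ 0
(constant curve).  If f y ≥ r2 for some y ≠ 0 then f takes some value m with 3π²/lam < m < r2 at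
some z ≠ 0 (intermediate value theorem, `IsPreconnected.intermediate_value`), contradicting MYB.
So f y < r2, and by the definition of the infimum there is a curve with energy < r2. -/
def MY : Prop :=
  ∀ g G, Met g → LC g G → ∀ (lam r2 : ℝ) (p : ℍ[ℝ]), 0 < lam → 3 * Real.pi ^ 2 / lam < r2 →
    p ≠ 0 → (∀ c, C1 c → c 0 = p → En g c ≤ r2 → RicGe g G (c 1) lam) →
    ∀ y : ℍ[ℝ], y ≠ 0 → ∃ c, C1 c ∧ c 0 = p ∧ c 1 = y ∧ En g c < r2

/-- **D5-DIAM.** Final form.  Proof from MY.  For a curve c with En g c ≤ 121/Q: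
|s(c 1) - s(c 0)| ≤ ∫ |Ed (vel c) s| ≤ η Q^(3/2) ∫ sqrt(g(v,v)) ≤ η Q^(3/2) sqrt(En g c) ≤ 11 η Q
(`SS.chain`, Cauchy-Schwarz on [0,1]: (∫ sqrt f)² ≤ ∫ f).
First apply MY with base point p, lam = Q/4, r2 = 121/Q (12 π² < 121 since π² < 10; careful:
3π²/(Q/4) = 12π²/Q < 121/Q needs 12π² < 121, i.e. π² < 10.08): along curves from p with energy
≤ 121/Q one has s ≥ Q - 11ηQ ≥ Q/2, so RicGe with Q/4.  Hence every y is reached from p with energy
< 121/Q, so s y ≥ (1 - 11η) Q ≥ Q/2 for all y ≠ 0, and RicGe holds everywhere with lam = Q/4.  Now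
apply MY with arbitrary base point x. -/
def DIAM : Prop :=
  ∀ g G, Met g → LC g G → ∀ (s : ℍ[ℝ] → ℝ) (Q η : ℝ) (p : ℍ[ℝ]), SS s → 0 < Q → 0 ≤ η →
    η ≤ 1 / 22 → p ≠ 0 → s p = Q →
    (∀ x, x ≠ 0 → ∀ v, |Ed v s x| ≤ η * (Q * Real.sqrt Q) * Real.sqrt (g x v v)) →
    (∀ x, x ≠ 0 → Q / 2 ≤ s x → RicGe g G x (Q / 4)) →
    (∀ x, x ≠ 0 → (1 - 11 * η) * Q ≤ s x) ∧
    ∀ x y : ℍ[ℝ], x ≠ 0 → y ≠ 0 → ∃ c, C1 c ∧ c 0 = x ∧ c 1 = y ∧ En g c < 121 / Q

end Pool.Agent.Helper64.RF
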