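import Pool.Agent.Helper64.RF.Basic
import Pool.Agent.Helper47.RF.Core

/-!
PROJECT RF, PART F: a metric on the 3-sphere that is uniformly equivalent to the round one and has
almost constant curvature 1 has volume bounded below (developing map in Cayley coordinates, radial
gauge, cone map, divergence theorem).  Every statement below is one packet; hypotheses of other
packets may be used as hypotheses.

Conventions: see Base.lean and Basic.lean.  The measurable structure on the quaternions is the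
Borel one of Pool.Agent.Helper47.RF.Core; `volume` is Lebesgue measure.
-/

open Quaternion MeasureTheory

open scoped RealInnerProductSpace

namespace Pool.Agent.Helper64.RF

/-! ### Cayley coordinates -/

/-- Cayley coordinates of the sphere minus a point: `X ξ = (1+ξ)²`. -/
noncomputable def X (ξ : W) : ℍ[ℝ] := (1 + iot ξ) * (1 + iot ξ)

/-- The Maurer-Cartan form in Cayley coordinates: `Jc ξ a = im (X⁻¹ dX(a))`. -/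
noncomputable def Jc (ξ a : W) : W :=
  im ((X ξ)⁻¹ * (iot a * (1 + iot ξ) + (1 + iot ξ) * iot a))

/-- `1 + |ξ|²`. -/
noncomputable def nn (ξ : W) : ℝ := 1 + sq ξ

/-- The coordinate map (0-homogeneous, smooth where `‖x‖ + x.re > 0`). -/
noncomputable def xi (x : ℍ[ℝ]) : W := (‖x‖ + x.re)⁻¹ • im x

/-- **F-CAY.** Cayley coordinates.  Proofs.  Write ξ for `iot ξ`; ξ² = -sq ξ, so
`X = 1 - sq ξ + 2ξ`, `‖X‖ = ‖1+ξ‖² = 1 + sq ξ`, re X = 1 - sq ξ; hence (5).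
(2) product rule.  (3): X⁻¹ = (1+ξ)⁻¹(1+ξ)⁻¹, (1+ξ)⁻¹ = (1-ξ)/nn.  Let a = iot a.
X⁻¹(a(1+ξ) + (1+ξ)a) = (1+ξ)⁻¹ [ (1+ξ)⁻¹ a (1+ξ) + a ] and
(1+ξ)⁻¹ a (1+ξ) + a = (1+ξ)⁻¹ [a(1+ξ) + (1+ξ)a] ; direct check in coordinates (`Quaternion.ext`,
field_simp, ring) is the easiest way: both sides of (3) are explicit rational functions; the left
side times nn² is im((1-ξ)(1-ξ)(a(1+ξ)+(1+ξ)a)), and (1-ξ)(1-ξ)(a(1+ξ)+(1+ξ)a) has the same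
imaginary part as 2(1-ξ)a(1+ξ).
(4): |(1-ξ)a(1+ξ)| = nn |a| and (1-ξ)a(1+ξ) is imaginary ((1+ξ) is the conjugate of (1-ξ)).
(6): sq (xi x) = (‖x‖ - re)/(‖x‖ + re) because ‖x‖² = re² + sq(im x).
(7): xi is smooth where x ≠ 0 and ‖x‖ + re x ≠ 0; xi (r x) = xi x (r > 0).  By (5)
`xi ∘ X = id`, so for f = xi (extend `SS.chain`-type argument locally: fderiv xi (X ξ) (X ξ * q)
depends only on im q because fderiv xi y y = 0) a = fderiv xi (X ξ) (X ξ * iot (Jc ξ a)); so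
v ↦ fderiv xi (Xξ) (Xξ * iot v) is a left inverse of a ↦ Jc ξ a... as `Jc ξ` is bijective ((4):
injective linear map W → W) the two are mutually inverse; for general x use (6) and
fderiv xi (r x) (r y) = fderiv xi x y. -/
def CAY : Prop :=
  (∀ ξ, X ξ ≠ 0) ∧
  (∀ ξ, ∃ D : W →L[ℝ] ℍ[ℝ], HasFDerivAt X D ξ ∧
    ∀ a, D a = iot a * (1 + iot ξ) + (1 + iot ξ) * iot a) ∧
  (∀ ξ a, Jc ξ a = (2 / nn ξ ^ 2) • im ((1 - iot ξ) * iot a * (1 + iot ξ))) ∧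
  (∀ ξ a, sq (Jc ξ a) = 4 / nn ξ ^ 2 * sq a) ∧
  (∀ ξ, ‖X ξ‖ = nn ξ ∧ (X ξ).re = 1 - sq ξ ∧ xi (X ξ) = ξ) ∧
  (∀ x : ℍ[ℝ], 0 < ‖x‖ + x.re → X (xi x) = (2 / (‖x‖ + x.re)) • x ∧
    nn (xi x) = 2 * ‖x‖ / (‖x‖ + x.re)) ∧
  (∀ x : ℍ[ℝ], 0 < ‖x‖ + x.re → ContDiffAt ℝ (⊤ : ℕ∞) xi x ∧ fderiv ℝ xi x x = 0 ∧
    ∀ v : W, Jc (xi x) (fderiv ℝ xi x (x * iot v)) = v)

/-! ### Linear ODE with parameters, radial gauge -/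

/-- **F-NEM.** Curried smooth functions are smooth into the Banach space of continuous functions.
Proof: continuity: `ContinuousMap.curry`.  If a is C^∞ on V × ℝ then
`‖Φ(ξ+h) - Φ ξ - D‖ ≤ ‖h‖ sup_(s in [0,1], ‖k‖ ≤ ‖h‖) ‖∂a(ξ+k,s) - ∂a(ξ,s)‖ = o(‖h‖)` (mean value
inequality and uniform continuity on a compact set), so Φ has the derivative
`Λ (Φ' ξ)` where Φ' = curried map of ∂_ξ a : V → C([0,1], V →L F) and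
Λ : C([0,1], V →L F) →L (V →L C([0,1],F)) is the canonical continuous linear map.  Induction on n
(for all F, a at once) gives ContDiff n for all n (`contDiff_succ_iff_hasFDerivAt`). -/
def NEM : Prop :=
  ∀ (V F : Type) [NormedAddCommGroup V] [NormedSpace ℝ V] [FiniteDimensional ℝ V]
    [NormedAddCommGroup F] [NormedSpace ℝ F] (a : V → ℝ → F),
    ContDiff ℝ (⊤ : ℕ∞) (fun p : V × ℝ => a p.1 p.2) →
    ∃ Φ : V → C(Set.Icc (0:ℝ) 1, F), (∀ ξ (s : Set.Icc (0:ℝ) 1), Φ ξ s = a ξ s) ∧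
      ContDiff ℝ (⊤ : ℕ∞) Φ

/-- **F-LSD.** Radial parallel transport depends smoothly on the end point (from NEM).
Proof.  𝔸 = E →L E, Z = C([0,1], 𝔸) (a Banach algebra), a(ξ,s) = - B (s ξ) ξ, Φ from NEM,
K : Z →L Z integration from 0, T(ξ) = K ∘ (left multiplication by Φ ξ) : Z →L Z, smooth in ξ.
`‖T(ξ)^n‖ ≤ M^n/n!` (‖(T^n z)(r)‖ ≤ (M r)^n/n! ‖z‖), so some power of T has norm < 1 and 1 - T(ξ)
is a unit of the Banach algebra Z →L Z.  Y(ξ) = (1 - T(ξ))⁻¹ 1 is smooth in ξ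
(`contDiffAt_ringInverse`) and solves Y(r) = 1 + ∫_0^r a(ξ,s) Y(s) ds.  U ξ = Y(ξ)(1).
Uniqueness of the integral equation gives Y(ξ)(r) = U(r ξ) for 0 ≤ r ≤ 1
(s ↦ Y(ξ)(r s) solves the equation of r ξ).  So U(0) = 1 and, since U is differentiable, the left
derivative at r = 1 of U(r ξ) = Y(ξ)(r) is `fderiv U ξ ξ = - B ξ ξ ∘ U ξ`. -/
def LSD : Prop :=
  ∀ (E : Type) [NormedAddCommGroup E] [NormedSpace ℝ E] [CompleteSpace E]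
    (B : W → W →L[ℝ] (E →L[ℝ] E)), ContDiff ℝ (⊤ : ℕ∞) B →
    ∃ U : W → (E →L[ℝ] E), ContDiff ℝ (⊤ : ℕ∞) U ∧ U 0 = ContinuousLinearMap.id ℝ E ∧
      ∀ ξ, fderiv ℝ U ξ ξ = - (B ξ ξ).comp (U ξ)

/-- Curvature of the connection `∂_a + B ξ a`. -/
noncomputable def Fc {E : Type} [NormedAddCommGroup E] [NormedSpace ℝ E]
    (B : W → W →L[ℝ] (E →L[ℝ] E)) (ξ a b : W) : E →L[ℝ] E :=
  fderiv ℝ B ξ a b - fderiv ℝ B ξ b a + (B ξ a).comp (B ξ b) - (B ξ b).comp (B ξ a)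

/-- **F-RAD.** In the radial gauge the connection is bounded by the curvature.
Proof.  Fix ξ (‖ξ‖ ≤ R), a; b(ζ) = fderiv P ζ a + B ζ a ∘ P ζ.  Put
`β r = r • Pi (r ξ) ∘ b(r ξ)` for r in [0,1].  With ζ = r ξ:
P(rξ)' = fderiv P ζ ξ = - B ζ ξ ∘ P (r ≠ 0: the radial equation at ζ divided by r; at r = 0 by
continuity, or use it only for r > 0), Pi' = Pi ∘ B ζ ξ.  Differentiating the identity
fderiv P ζ ζ = - B ζ ζ ∘ P ζ in the direction a (second derivative of P symmetric):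
D²P(a,ζ) + DP(a) = - (fderiv B ζ a ζ) P - (B ζ a) P - (B ζ ζ) DP(a).
So β' r = Pi [ b + r B(ξ) b + r (D²P(ξ,a) + (fderiv B ζ ξ a) P + B(a) DP(ξ)) ]
       = r Pi ∘ Fc B ζ ξ a ∘ P.
Hence ‖β'‖ ≤ r K² κ ‖ξ‖ ‖a‖, β(0) = 0, ‖β 1‖ ≤ K² κ ‖ξ‖‖a‖/2, and b(ξ) = P ξ ∘ β 1. -/
def RAD : Prop :=
  ∀ (E Q : Type) [NormedAddCommGroup E] [NormedSpace ℝ E] [NormedAddCommGroup Q]
    [NormedSpace ℝ Q] (B : W → W →L[ℝ] (E →L[ℝ] E)) (P : W → (Q →L[ℝ] E))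
    (Pi : W → (E →L[ℝ] Q)) (R K κ : ℝ),
    ContDiff ℝ (⊤ : ℕ∞) B → ContDiff ℝ (⊤ : ℕ∞) P → ContDiff ℝ (⊤ : ℕ∞) Pi →
    (∀ ξ, (P ξ).comp (Pi ξ) = ContinuousLinearMap.id ℝ E) →
    (∀ ξ, (Pi ξ).comp (P ξ) = ContinuousLinearMap.id ℝ Q) →
    (∀ ξ, fderiv ℝ P ξ ξ = - (B ξ ξ).comp (P ξ)) → 0 ≤ K → 0 ≤ κ →
    (∀ ξ, ‖ξ‖ ≤ R → ‖P ξ‖ ≤ K ∧ ‖Pi ξ‖ ≤ K ∧ ∀ a b, ‖Fc B ξ a b‖ ≤ κ * ‖a‖ * ‖b‖) →
    ∀ ξ, ‖ξ‖ ≤ R → ∀ a, ‖fderiv ℝ P ξ a + (B ξ a).comp (P ξ)‖ ≤ K ^ 3 * κ * R * ‖a‖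

/-- The metric on `TM ⊕ ℝ`. -/
noncomputable def Gh (g : ℍ[ℝ] → W →L[ℝ] W →L[ℝ] ℝ) (x : ℍ[ℝ]) (s s' : W × ℝ) : ℝ :=
  g x s.1 s'.1 + s.2 * s'.2

/-- **F-CON.** The connection `D_v(Y,f) = (D_v Y + f v, v f - g(v,Y))` in Cayley coordinates
(from CAY).  Proof.  Bt ξ a (Y,f) = (G(X ξ)(J a) Y + f J a, - g(X ξ)(J a) Y), J a = Jc ξ a:
a smooth function of ξ with values in the finite dimensional space of bilinear maps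
(compositions of smooth maps; ξ ↦ (X ξ)⁻¹ is smooth as X ξ ≠ 0; g, G are SS).
Metric compatibility: `SS.chain_fderiv` gives fderiv (g ∘ X) ξ a = Ed (J a) g (X ξ), and LC.metric:
d(Gh(s,s')) = g(G v Y,Y') + g(Y,G v Y'), v = J a, and the f v, -g(v,Y) terms cancel.
Curvature: with v_a = Jc ξ a one has the Maurer-Cartan identity
 (D_a (Jc · b) - D_b (Jc · a)) ξ = - br (Jc ξ a) (Jc ξ b)
(θ_a = X⁻¹ D_a X, D_a θ_b = - θ_a θ_b + X⁻¹ D_a D_b X, second derivatives symmetric, and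
`im_comm`), so with the chain rule
Fc = (Ed u Bc)(v) - (Ed v Bc)(u) + Bc(u) Bc(v) - Bc(v) Bc(u) - Bc(br u v), u = J a, v = J b,
Bc x v (Y,f) = (G x v Y + f v, - g x v Y).  Compute on (Y,f):
first component: Rm(u,v)Y + f (G u v - G v u - br u v) - g(v,Y) u + g(u,Y) v  (torsion: f-term 0);
second component: - g(G u v,Y) - g(v,G u Y) + g(G v u,Y) + g(u,G v Y) - g(u, G v Y) - f g(u,v)
 + g(v, G u Y) + f g(v,u) + g(br u v, Y) = 0. -/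
def CON : Prop :=
  ∀ g G, Met g → LC g G → ∃ Bt : W → W →L[ℝ] ((W × ℝ) →L[ℝ] (W × ℝ)),
    ContDiff ℝ (⊤ : ℕ∞) Bt ∧
    (∀ ξ a Y f, Bt ξ a (Y, f) =
      (G (X ξ) (Jc ξ a) Y + f • Jc ξ a, - g (X ξ) (Jc ξ a) Y)) ∧
    (∀ ξ a s s', fderiv ℝ (fun ζ => Gh g (X ζ) s s') ξ a =
      Gh g (X ξ) (Bt ξ a s) s' + Gh g (X ξ) s (Bt ξ a s')) ∧
    (∀ ξ a b Y f, Fc Bt ξ a b (Y, f) =
      (Rm G (X ξ) (Jc ξ a) (Jc ξ b) Y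
        - (g (X ξ) (Jc ξ b) Y • Jc ξ a - g (X ξ) (Jc ξ a) Y • Jc ξ b), 0))

/-- **F-PEX.** Existence of the parallel frame (from LSD, CON, CAY).
Proof.  Bt from CON, U from LSD (E = W × ℝ).  Let b be a g(X 0)-orthonormal basis of W
(Gram-Schmidt or a square root of the Gram matrix) and P0 q = (Σ_i (im q)_i b_i, q.re); then
Gh g (X 0) (P0 q) (P0 q') = ⟪q, q'⟫ (inner product of the quaternions: `Quaternion.inner_def`;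
q.re q'.re + Σ im_i im'_i).  P ξ = U ξ ∘ P0.  For fixed ξ, q, q' the function
r ↦ Gh g (X (rξ)) (P(rξ) q) (P(rξ) q') has derivative 0 on (0,1) (metric compatibility of CON and
(P(rξ)q)' = -Bt(rξ)(ξ) P(rξ) q for r > 0) and is continuous on [0,1], so the isometry property
holds at every ξ.  P ξ is injective (isometry), so bijective (dimension 4 = 4);
Pi ξ (Y,f) = the quaternion z with ⟪z, q_k⟫ = Gh g (X ξ) (Y,f) (P ξ q_k) for the standard basis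
q_k, i.e. Pi ξ s = Σ_k Gh g (X ξ) s (P ξ q_k) q_k: smooth in ξ, a two-sided inverse. -/
def PEX : Prop :=
  ∀ g G, Met g → LC g G → ∀ Bt : W → W →L[ℝ] ((W × ℝ) →L[ℝ] (W × ℝ)),
    ContDiff ℝ (⊤ : ℕ∞) Bt →
    (∀ ξ a s s', fderiv ℝ (fun ζ => Gh g (X ζ) s s') ξ a =
      Gh g (X ξ) (Bt ξ a s) s' + Gh g (X ξ) s (Bt ξ a s')) →
    ∃ (P : W → (ℍ[ℝ] →L[ℝ] (W × ℝ))) (Pi : W → ((W × ℝ) →L[ℝ] ℍ[ℝ])),
      ContDiff ℝ (⊤ : ℕ∞) P ∧ ContDiff ℝ (⊤ : ℕ∞) Pi ∧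
      (∀ ξ, (P ξ).comp (Pi ξ) = ContinuousLinearMap.id ℝ (W × ℝ)) ∧
      (∀ ξ, (Pi ξ).comp (P ξ) = ContinuousLinearMap.id ℝ ℍ[ℝ]) ∧
      (∀ ξ, fderiv ℝ P ξ ξ = - (Bt ξ ξ).comp (P ξ)) ∧
      (∀ ξ q q', Gh g (X ξ) (P ξ q) (P ξ q') = ⟪q, q'⟫) ∧
      (∀ ξ s q, ⟪Pi ξ s, q⟫ = Gh g (X ξ) s (P ξ q))

/-- Almost developing map `Φ` with almost derivative `Y` on the ball of radius `R`. -/
structure Dev (g : ℍ[ℝ] → W →L[ℝ] W →L[ℝ] ℝ) (R ε : ℝ) (Φ : W → ℍ[ℝ])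
    (Y : W → W →L[ℝ] ℍ[ℝ]) : Prop where
  smooth : ContDiff ℝ (⊤ : ℕ∞) Φ
  norm : ∀ ξ, ‖Φ ξ‖ = 1
  orth : ∀ ξ v, ⟪Φ ξ, Y ξ v⟫ = 0
  gram : ∀ ξ v w, ⟪Y ξ v, Y ξ w⟫ = g (X ξ) v w
  der : ∀ ξ, sq ξ ≤ R ^ 2 → ∀ a, ‖fderiv ℝ Φ ξ a - Y ξ (Jc ξ a)‖ ≤ ε * ‖a‖

/-- Bounds used everywhere in this part. -/
structure Bds (g : ℍ[ℝ] → W →L[ℝ] W →L[ℝ] ℝ) (G : ℍ[ℝ] → W →L[ℝ] W →L[ℝ] W)
    (c0 C0 η : ℝ) : Prop where
  met : Met g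
  lc : LC g G
  lower : ∀ x, x ≠ 0 → ∀ v, c0 * sq v ≤ g x v v
  upper : ∀ x, x ≠ 0 → ∀ v, g x v v ≤ C0 * sq v
  curv : ∀ x, x ≠ 0 → ∀ u v z,
    ‖Rm G x u v z - (g x v z • u - g x u z • v)‖ ≤ η * ‖u‖ * ‖v‖ * ‖z‖

/-- **F-DEV.** Existence of the almost developing map (from CAY, CON, PEX, RAD).
Proof.  Φ ξ = Pi ξ (0,1), Y ξ v = Pi ξ (v,0).  By PEX ⟪Pi s, Pi s'⟫ = Gh s (P Pi s') = Gh s s', so
norm, orth, gram.  ⟪Φ ξ, q⟫ = (P ξ q).2 (PEX, last item, s = (0,1)), so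
⟪fderiv Φ ξ a, q⟫ = (fderiv P ξ a q).2 = (b q).2 - (Bt ξ a (P ξ q)).2 with
b = fderiv P ξ a + Bt ξ a ∘ P ξ, and -(Bt ξ a (P q)).2 = g (X ξ) (Jc ξ a) (P q).1
= ⟪Y ξ (Jc ξ a), q⟫.  So ⟪fderiv Φ ξ a - Y (Jc ξ a), q⟫ = (b q).2 and
‖fderiv Φ ξ a - Y ξ (Jc ξ a)‖ ≤ ‖b‖.  RAD on the ball ‖ξ‖ ≤ R (sup norm; sq ξ ≤ R² implies
‖ξ‖ ≤ R by norm_sq_le_sq) with: ‖P ξ‖, ‖Pi ξ‖ ≤ K1(c0,C0) because Gh is comparable to the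
Euclidean norm (c0 sq v + f² ≤ Gh ≤ C0 sq v + f², norm_sq_le_sq, sq_le_norm_sq), and
‖Fc Bt ξ a b‖ ≤ η ‖Jc ξ a‖ ‖Jc ξ b‖ ≤ 12 η ‖a‖ ‖b‖ ((4) of CAY: sq (Jc ξ a) ≤ 4 sq a
≤ 12 ‖a‖², norm of W × ℝ is the max).  So ε = K η. -/
def DEV : Prop :=
  ∀ c0 C0 R : ℝ, 0 < c0 → 0 < C0 → 0 < R → ∃ K : ℝ, 0 < K ∧
    ∀ g G (η : ℝ), 0 ≤ η → Bds g G c0 C0 η → ∃ Φ Y, Dev g R (K * η) Φ Y

/-! ### Geometry of almost developing maps -/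

/-- Gram matrix of the metric in the frame. -/
noncomputable def gmat (g : ℍ[ℝ] → W →L[ℝ] W →L[ℝ] ℝ) (x : ℍ[ℝ]) : Matrix (Fin 3) (Fin 3) ℝ :=
  Matrix.of fun i j => g x (Pi.single i 1) (Pi.single j 1)

/-- The cone map. -/
noncomputable def Fh (Φ : W → ℍ[ℝ]) (x : ℍ[ℝ]) : ℍ[ℝ] := ‖x‖ • Φ (xi x)

/-- The closed region of the sphere covered by the ball of radius `R`:
`sq (xi x) ≤ R²` iff `(1 - R²) ‖x‖ ≤ (1 + R²) re x`. -/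
def KR (R : ℝ) : Set ℍ[ℝ] := {x | x ≠ 0 ∧ (1 - R ^ 2) * ‖x‖ ≤ (1 + R ^ 2) * x.re}

/-- **F-JAC.** The Jacobian of the cone map (from CAY).
Proof.  For x in KR: ‖x‖ + re x ≥ 2‖x‖/(1+R²) > 0; sq (xi x) = (‖x‖-re)/(‖x‖+re) ≤ R².
D(‖x‖)(x q) = ‖x‖ re q (inner product of x and x q is ‖x‖² re q), D xi (x q) = D xi (x iot(im q))
(CAY (7)); so L(q) := D Fh(x)(x q) = ‖x‖ • Λ q, Λ q = re q • Φ + Z (im q),
Z v = fderiv Φ (xi x) (D xi (x iot v)) and by Dev.der and Jc (xi x) (D xi (x iot v)) = v: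
‖Z v - Y (xi x) v‖ ≤ ε ‖D xi(x iot v)‖ ≤ ε (nn/2) (sq v)^(1/2)  ((4) of CAY), nn ≤ 1+R².
Left multiplication by x on the quaternions has determinant ‖x‖⁴ (x ≠ 0), so
det (D Fh x) = det Λ.  Let Λ0 q = re q • Φ + Y (im q).  In the orthonormal basis 1,i,j,k the
matrix N0 of Λ0 satisfies N0ᵀ N0 = Gram = diag(1, gmat g (X (xi x))) and X (xi x) is a positive
multiple of x, so |det Λ0| = sqrt (det (gmat g x)).  The entries of N0 and N (matrix of Λ) are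
bounded by sqrt C0 + 1 + (1+R²) (ε ≤ 1) and differ by at most ε (1+R²); det is a polynomial of
degree 4 in the entries, so |det Λ - det Λ0| ≤ K ε. -/
def JAC : Prop :=
  ∀ C0 R : ℝ, 0 < C0 → 0 < R → ∃ K : ℝ, 0 < K ∧
    ∀ g (ε : ℝ) (Φ : W → ℍ[ℝ]) (Y : W → W →L[ℝ] ℍ[ℝ]), Met g →
      (∀ x, x ≠ 0 → ∀ v, g x v v ≤ C0 * sq v) → 0 ≤ ε → ε ≤ 1 → Dev g R ε Φ Y →
      ∀ x ∈ KR R, ContDiffAt ℝ (⊤ : ℕ∞) (Fh Φ) x ∧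
        abs (|(fderiv ℝ (Fh Φ) x).det| - Real.sqrt (gmat g x).det) ≤ K * ε

/-- **F-DGE.** Determinant of a positive matrix bounded below.
Proof.  A symmetric real matrix M with `c0 |v|² ≤ vᵀ M v` is positive definite with eigenvalues
≥ c0 (`Matrix.IsHermitian.eigenvalues`, det = product of the eigenvalues), so det M ≥ c0³.
(Or by hand: Schur complements.) -/
def DGE : Prop :=
  ∀ (c0 : ℝ) (M : Matrix (Fin 3) (Fin 3) ℝ), 0 < c0 → (∀ i j, M i j = M j i) →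
    (∀ v : Fin 3 → ℝ, c0 * (v 0 ^ 2 + v 1 ^ 2 + v 2 ^ 2) ≤ ∑ i, ∑ j, M i j * v i * v j) →
    c0 ^ 3 ≤ M.det

/-- **F-BDR.** The boundary of the region has small image.
Proof.  If R²/2 ≤ sq ζ ≤ R² then, with |a| = sqrt (sq a),
‖fderiv Φ ζ a‖ ≤ ‖Y (Jc ζ a)‖ + ε‖a‖ = sqrt (g (Jc ζ a)(Jc ζ a)) + ε ‖a‖
≤ sqrt C0 (2/nn ζ) |a| + ε |a| ≤ (4 sqrt C0/R² + ε) |a|.
If ξ·ξ'' ≥ 0 (Euclidean inner product) and sq = R² for both, the segment between them lies in that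
region and |ξ - ξ''| ≤ sqrt 2 R, so ‖Φ ξ - Φ ξ''‖ ≤ sqrt 2 R (4 sqrt C0/R² + ε) (mean value
inequality for t ↦ Φ (ξ + t(ξ''-ξ)) on [0,1]).  For arbitrary ξ, ξ' on the sphere of radius R there
is ξ'' on it with ξ·ξ'' ≥ 0 and ξ'·ξ'' ≥ 0 (R (ξ+ξ')/|ξ+ξ'|, or any vector orthogonal to ξ if
ξ' = -ξ).  2 sqrt 2 * 4 ≤ 12, 2 sqrt 2 ≤ 3. -/
def BDR : Prop :=
  ∀ g (C0 R ε : ℝ) (Φ : W → ℍ[ℝ]) (Y : W → W →L[ℝ] ℍ[ℝ]), Met g →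
    (∀ x, x ≠ 0 → ∀ v, g x v v ≤ C0 * sq v) → 0 < C0 → 0 < R → 0 ≤ ε → Dev g R ε Φ Y →
    ∀ ξ ξ', sq ξ = R ^ 2 → sq ξ' = R ^ 2 →
      ‖Φ ξ - Φ ξ'‖ ≤ 12 * Real.sqrt C0 / R + 3 * R * ε

/-- **F-NE1.** A map with Jacobian bounded below does not shrink a box to a tiny set.
Proof.  Suppose φ is such a map.  det (Dφ) is continuous and does not vanish on the box B (convex),
so it has a constant sign there and |∫_B det Dφ| ≥ c.  On the other hand det Dφ = div V with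
V_i = φ_0 (∇φ_1 × ∇φ_2)_i (φ is C^2: the cross product of two gradients is divergence free), so by
the divergence theorem on the box (`MeasureTheory.integral_divergence_of_hasFDerivAt_off_countable`
or the `...'` versions) |∫_B det Dφ| ≤ 6 δ 2 L² (each of the six faces has area 1, |V_i| ≤ 2 δ L²).
So δ0 = c/(13 L²) works. -/
def NE1 : Prop :=
  ∀ L c : ℝ, 0 < L → 0 < c → ∃ δ0 : ℝ, 0 < δ0 ∧
    ∀ φ : W → W, ContDiff ℝ (⊤ : ℕ∞) φ →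
      (∀ ξ ∈ Set.Icc (fun _ => -(1/2) : W) (fun _ => 1/2), ‖fderiv ℝ φ ξ‖ ≤ L ∧
        c ≤ |(fderiv ℝ φ ξ).det|) →
      ∃ ξ ∈ Set.Icc (fun _ => -(1/2) : W) (fun _ => 1/2), δ0 < ‖φ ξ‖

/-- **F-NEE.** An almost developing map does not shrink (from CAY, NE1, DGE).
Proof.  On the box sq ξ ≤ 3/4 ≤ 1, nn ≤ 7/4.  Let y0 be a unit quaternion with
‖Φ ξ - y0‖ ≤ δ on the whole box, y_k = y0 * iot(e_k) (k = 1,2,3): (y0,y1,y2,y3) is orthonormal.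
φ_k ξ = ⟪Φ ξ, y_k⟫, f0 = ⟪Φ ξ, y0⟫ ∈ [1/2,1] if δ ≤ 1; |φ_k| = |⟪Φ ξ - y0, y_k⟫| ≤ δ.
‖fderiv Φ ξ a‖ ≤ sqrt C0 * 2 |a| + ε ‖a‖ ≤ L ‖a‖, L = 4 sqrt C0 + 1 (|a| ≤ sqrt 3 ‖a‖).
Let M4 be the 4x4 matrix with rows Φ, ∂_1Φ, ∂_2Φ, ∂_3Φ in the basis y, M0 the same with ∂_jΦ
replaced by Y(Jc ξ e_j): M0 M0ᵀ = diag(1, g(J e_i, J e_j)), whose determinant is
(det J)² det(gmat g) ≥ (2/nn)⁶ c0³ ≥ c0³ (from g ≥ c0 sq: det of gmat ≥ c0³; |det J| = (2/nn)³).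
So |det M4| ≥ c0^(3/2) - K ε ≥ c0^(3/2)/2 for ε ≤ ε0.  Expanding along the first row
|det M4 - f0 det(∂_j φ_k)| ≤ K δ, so |det Dφ| ≥ c0^(3/2)/4 for δ small.  NE1 applied to
φ = (φ_1,φ_2,φ_3) gives a point with ‖φ ξ‖ > δ0(L, c0^(3/2)/4): contradiction if δ ≤ δ0. -/
def NEE : Prop :=
  ∀ c0 C0 : ℝ, 0 < c0 → 0 < C0 → ∃ δ0 ε0 : ℝ, 0 < δ0 ∧ 0 < ε0 ∧
    ∀ g (ε : ℝ) (Φ : W → ℍ[ℝ]) (Y : W → W →L[ℝ] ℍ[ℝ]), Met g →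
      (∀ x, x ≠ 0 → ∀ v, c0 * sq v ≤ g x v v ∧ g x v v ≤ C0 * sq v) → 0 ≤ ε → ε ≤ ε0 →
      Dev g 1 ε Φ Y → ∀ y0 : ℍ[ℝ], ‖y0‖ = 1 → ∃ ξ, sq ξ ≤ 1 ∧ δ0 < ‖Φ ξ - y0‖

/-- **F-TOP.** Covering by openness and connectedness.
Proof.  A = F '' (KR R).  C = {y ≠ 0 : δ < ‖‖y‖⁻¹ y - y0‖} = {y : ⟪y,y0⟫ < (1-δ²/2) ‖y‖}: this set
is open and star convex about -y0 (for 0 ≤ t ≤ 1, y in C:
⟪(1-t)(-y0) + t y, y0⟫ = -(1-t) + t⟪y,y0⟫ < (1-δ²/2)(t‖y‖ - (1-t)) ≤ (1-δ²/2)‖...‖ for t > 0,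
and -y0 in C), hence preconnected.  A ∩ C is relatively closed: if F x_n → y ≠ 0 then
‖x_n‖ = ‖F x_n‖ → ‖y‖, x_n has a limit point x ≠ 0 in KR R (KR R is closed in {0}ᶜ), F x = y.
A ∩ C is open: for F x = y in C, x in KR R, the point x is not on the boundary
(1-R²)‖x‖ = (1+R²) re x (there ‖‖y‖⁻¹y - y0‖ ≤ δ by homogeneity), so x is an interior point of
KR R and F maps a neighbourhood of x onto a neighbourhood of y.  A ∩ C is nonempty by (e). So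
C ⊆ A. -/
def TOP : Prop :=
  ∀ (F : ℍ[ℝ] → ℍ[ℝ]) (R δ : ℝ) (y0 : ℍ[ℝ]), 0 < R → 0 < δ → δ < 1 → ‖y0‖ = 1 →
    (∀ x ∈ KR R, ∀ r : ℝ, 0 < r → F (r • x) = r • F x) → (∀ x ∈ KR R, ‖F x‖ = ‖x‖) →
    ContinuousOn F (KR R) →
    (∀ x ∈ KR R, (1 - R ^ 2) * ‖x‖ < (1 + R ^ 2) * x.re → nhds (F x) ≤ Filter.map F (nhds x)) →
    (∀ x ∈ KR R, ‖x‖ = 1 → (1 - R ^ 2) * ‖x‖ = (1 + R ^ 2) * x.re → ‖F x - y0‖ ≤ δ) →
    (∃ x ∈ KR R, ‖x‖ = 1 ∧ δ < ‖F x - y0‖) →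
    ∀ y : ℍ[ℝ], y ≠ 0 → δ < ‖‖y‖⁻¹ • y - y0‖ → ∃ x ∈ KR R, F x = y

/-- **F-CON2.** Half of the ball is outside of a thin cone.
Proof.  D = {y ∈ ball : y ≠ 0, ‖‖y‖⁻¹ y - y0‖ ≤ δ}; D and -D are disjoint (δ < 1: otherwise
2 = ‖y0 + y0‖ ≤ 2δ) and have the same measure, so 2 vol D ≤ vol ball. -/
def HALF : Prop :=
  ∀ (δ : ℝ) (y0 : ℍ[ℝ]), 0 < δ → δ < 1 → ‖y0‖ = 1 →
    volume (Metric.ball (0 : ℍ[ℝ]) 1) ≤
      2 * volume {y : ℍ[ℝ] | y ∈ Metric.ball (0 : ℍ[ℝ]) 1 ∧ y ≠ 0 ∧ δ < ‖‖y‖⁻¹ • y - y0‖}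

/-- **F-FIN.** The volume bound (from CAY, DEV, JAC, BDR, NEE, TOP, HALF, DGE).
Proof.  Given c0, C0 take δ0, ε0 from NEE, δ = min δ0 (1/2); R ≥ 1 with
12 sqrt C0/R ≤ δ/2; K1 from DEV (c0,C0,R), K2 from JAC (C0,R); η > 0 so small that ε = K1 η
satisfies ε ≤ 1, ε ≤ ε0, 3 R ε ≤ δ/2, K2 ε ≤ 1/4 and K2 ε < c0^(3/2)/2.
Let Φ, Y be the almost developing map.  F = Fh Φ: positively homogeneous, ‖F x‖ = ‖x‖, smooth on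
KR R (JAC), |det DF| ≥ sqrt(det gmat) - K2 ε > 0 there (det gmat ≥ c0³), hence open at interior
points (`HasStrictFDerivAt.map_nhds_eq_of_equiv` or `...map_nhds_eq_of_surj`).  y0 = Φ ξ0 for some
ξ0 with sq ξ0 = R²: boundary points x (‖x‖=1) of KR R have sq (xi x) = R², so by BDR
‖F x - y0‖ ≤ δ.  NEE (Dev g R ε implies Dev g 1 ε as R ≥ 1) gives ξ1, x1 = X ξ1/‖X ξ1‖ in KR R with
δ < ‖F x1 - y0‖ (F x1 = Φ ξ1; if δ < δ0 fine: δ ≤ δ0 < ‖·‖).  By TOP the image of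
KR R ∩ ball covers {y ∈ ball, y ≠ 0, δ < ‖y/‖y‖ - y0‖} (‖F x‖ = ‖x‖).  With HALF and
`MeasureTheory.addHaar_image_le_lintegral_abs_det_fderiv`:
vol(ball)/2 ≤ ∫_(KR R ∩ ball) |det DF| ≤ ∫_ball (sqrt (det gmat) + 1/4).
(sqrt (det (gmat g x)) is continuous on {0}ᶜ and bounded, hence integrable on the ball.) -/
def FIN : Prop :=
  ∀ c0 C0 : ℝ, 0 < c0 → 0 < C0 → ∃ η : ℝ, 0 < η ∧ ∀ g G, Bds g G c0 C0 η →
    (volume (Metric.ball (0 : ℍ[ℝ]) 1)).toReal / 4 ≤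
      ∫ x in Metric.ball (0 : ℍ[ℝ]) 1, Real.sqrt (gmat g x).det

end Pool.Agent.Helper64.RF
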