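import Pool.Agent.Helper64.RF.GoalsD
import Pool.Agent.Helper64.RF.GoalsF

/-!
PROJECT RF, links between the definitions of Pool.Agent.Helper47.RF.Core (matrix fields) and those
of Pool.Agent.Helper64.RF.Base (bilinear map valued functions).
-/

open Quaternion MeasureTheory

namespace Pool.Agent.Helper64.RF

open Pool.Agent.Helper47.RF (MF IsMetric Gam Rup gdist gdiam gvol eps)

/-- The bilinear form with matrix `M`. -/
noncomputable def bil (M : Matrix (Fin 3) (Fin 3) ℝ) : W →L[ℝ] W →L[ℝ] ℝ :=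
  ∑ i, ∑ j, M i j • ((ContinuousLinearMap.proj (R := ℝ) (φ := fun _ : Fin 3 => ℝ) i).smulRight
    (ContinuousLinearMap.proj (R := ℝ) (φ := fun _ : Fin 3 => ℝ) j))

/-- The metric of a matrix field. -/
noncomputable def toG (gm : MF) (x : ℍ[ℝ]) : W →L[ℝ] W →L[ℝ] ℝ := bil (gm x)

/-- The Christoffel map of a matrix field: `(v, a) ↦ Σ Gam i j k v_i a_j e_k`. -/
noncomputable def toC (gm : MF) (x : ℍ[ℝ]) : W →L[ℝ] W →L[ℝ] W :=
  ∑ i, ∑ j, ∑ k, Gam gm i j k x •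
    ((ContinuousLinearMap.proj (R := ℝ) (φ := fun _ : Fin 3 => ℝ) i).smulRight
      ((ContinuousLinearMap.proj (R := ℝ) (φ := fun _ : Fin 3 => ℝ) j).smulRight
        (Pi.single k (1:ℝ) : W)))

/-- **L-LNK.** The Levi-Civita connection of a matrix field in the sense of Core is the one of Base.
Proof.  Evaluate: `toG gm x a b = Σ gm x i j a_i b_j`, `toC gm x v a = fun k => Σ Gam i j k v_i a_j`.
Smoothness: entries of gm are Sm; Gam is built from (gm x)⁻¹ (entries = cofactors / det, det > 0 by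
PosDef), products and frame derivatives E_i of Sm functions (E i f is Sm: `SS.ed`, E i f = Ed e_i f);
Sm f is SS f (ContDiffOn on the open set {0}ᶜ = ContDiffAt at every x ≠ 0; Hom0).
pos: PosDef.  metric: lowering, `Σ_k Gam i j k gm k l = GamL i j l` ((gm x)⁻¹ * gm x = 1, gm
symmetric), and Koszul: GamL i j k + GamL i k j = E_i g_jk (symmetry of g, eps antisymmetric),
Ed v g x a b = Σ v_i a_j b_k E_i g_jk.  torsion: GamL i j k - GamL j i k = 2 Σ_l eps i j l g_lk, so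
Gam i j k - Gam j i k = 2 eps i j k, and (br v a)_k = 2 Σ eps i j k v_i a_j (`br_eq`).
Curvature: Ed u (toC) x v z has components Σ u_i v_j z_k E_i (Gam j k l); compare with the
definition of Rup (br u v = 2 Σ eps). -/
def LNK : Prop :=
  ∀ gm : MF, IsMetric gm → Met (toG gm) ∧ LC (toG gm) (toC gm) ∧
    (∀ x, gmat (toG gm) x = gm x) ∧
    ∀ x, x ≠ 0 → ∀ u v z l, Rm (toC gm) x u v z l =
      ∑ i, ∑ j, ∑ k, Rup gm i j k l x * u i * v j * z k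

/-- **L-LKD.** Distance is at most the square root of the energy.
Proof.  Given c (C1, c 0 = x, c 1 = y, ‖x‖ = ‖y‖ = 1) put τ t = max 0 (min t 1) and
`d t = ‖c (τ t)‖⁻¹ • c (τ t)`: Lipschitz (composition of the 1-Lipschitz τ and a C^1 map on the
compact interval [0,1], extend: c/‖c‖ is C^1 on ℝ, hence Lipschitz on [0,1]), ‖d‖ = 1, d 0 = x,
d 1 = y: `Joins d x y`.  On (0,1): d = c/‖c‖, star d = d⁻¹, d⁻¹ d' = c⁻¹ c' + real, so
`fr (d t) (deriv d t) = vel c t`, gm (d t) = gm (c t) (0-homogeneous), so speed = sqrt f with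
f t = toG gm (c t) (vel c t) (vel c t), and glen = ∫_0^1 sqrt f ≤ sqrt (∫_0^1 f)
(Cauchy-Schwarz / Jensen, or: (∫ sqrt f - m)² ≥ 0 with m = ∫ sqrt f).  gdist is an infimum of a set
bounded below by 0. -/
def LKD : Prop :=
  ∀ gm : MF, IsMetric gm → ∀ (c : ℝ → ℍ[ℝ]), C1 c → ‖c 0‖ = 1 → ‖c 1‖ = 1 →
    gdist gm (c 0) (c 1) ≤ Real.sqrt (En (toG gm) c)

/-- `N` is the curvature operator at `x` in the orthonormal frame `A`:
`g(R(A_c,A_d)A_b, A_f) = - Σ eps c d l N l k eps k b f`. -/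
def CurvOp (g : ℍ[ℝ] → W →L[ℝ] W →L[ℝ] ℝ) (G : ℍ[ℝ] → W →L[ℝ] W →L[ℝ] W) (x : ℍ[ℝ])
    (A : Fin 3 → W) (N : Matrix (Fin 3) (Fin 3) ℝ) : Prop :=
  ∀ c d b f, g x (Rm G x (A c) (A d) (A b)) (A f) =
    - ∑ l, ∑ k, eps c d l * N l k * eps k b f

/-- **L-RIC.** Ricci in terms of the curvature operator, N = λ I + small.
Proof.  Rm G x u v z is trilinear in u, v, z.  Expand b_i = Σ O_ia A_a (O orthogonal), v = Σ w_a A_a.
Σ_i g(R(b_i,v)b_i,v) = Σ_c g(R(A_c,v)A_c,v) = Σ_{c,d,f} w_d w_f g(R(A_c,A_d)A_c,A_f)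
= - Σ eps c d l N l k eps k c f w_d w_f = -(tr N |w|² - wᵀ N w) (using
Σ_c eps c d l eps k c f = - Σ_c eps c d l eps c k f = -(δ_dk δ_lf - δ_df δ_lk); N symmetric).
So - Σ_i g(R(b_i,v)b_i,v) = tr N |w|² - wᵀ N w (sign: check with N = I: R(u,v)z = g(v,z)u - g(u,z)v
gives 2|v|²), and |w|² = g(v,v).  If |N - λ I| entries ≤ μ then wᵀ N w ≤ (λ + 3μ)|w|²,
tr N ≥ 3λ - 3μ. -/
def RIC : Prop :=
  ∀ g G, Met g → LC g G → ∀ x, x ≠ 0 → ∀ (A : Fin 3 → W) (N : Matrix (Fin 3) (Fin 3) ℝ)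
    (lam mu : ℝ), Orth g x A → CurvOp g G x A N → (∀ i j, N i j = N j i) →
    (∀ i j, |N i j - (if i = j then lam else 0)| ≤ mu) → RicGe g G x (2 * lam - 6 * mu)

/-- **L-CRV.** Almost constant curvature in terms of the curvature operator (N close to I).
Proof.  T(u,v,z) = Rm(u,v)z - (g(v,z)u - g(u,z)v) is trilinear, and for u = A_c, v = A_d, z = A_b its
A_f-component g(T, A_f) equals - Σ eps c d l (N - I) l k eps k b f (for N = I the right hand side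
- Σ_l eps c d l eps l b f = -(δ_cb δ_df - δ_cf δ_db) = g(A_d,A_b) g(A_c,A_f) - g(A_c,A_b) g(A_d,A_f)).
So |g(T(A_c,A_d,A_b),A_f)| ≤ 9 μ.  With u = Σ u^a A_a: |u^a| = |g(u,A_a)| ≤ sqrt(g(u,u))
≤ sqrt(3 C0) ‖u‖, and ‖A_f‖ ≤ 1/sqrt c0.  So ‖T(u,v,z)‖ ≤ 81 * 9 μ (3C0)^(3/2)/sqrt c0 ‖u‖‖v‖‖z‖. -/
def CRVB : Prop :=
  ∀ c0 C0 : ℝ, 0 < c0 → 0 < C0 → ∃ K : ℝ, 0 < K ∧ ∀ g G, Met g → LC g G →
    (∀ x, x ≠ 0 → ∀ v, c0 * sq v ≤ g x v v ∧ g x v v ≤ C0 * sq v) →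
    ∀ x, x ≠ 0 → ∀ (A : Fin 3 → W) (N : Matrix (Fin 3) (Fin 3) ℝ) (mu : ℝ), 0 ≤ mu →
    Orth g x A → CurvOp g G x A N → (∀ i j, |N i j - (if i = j then 1 else 0)| ≤ mu) →
    ∀ u v z, ‖Rm G x u v z - (g x v z • u - g x u z • v)‖ ≤ K * mu * ‖u‖ * ‖v‖ * ‖z‖

end Pool.Agent.Helper64.RF
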