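import Pool.Agent.Helper64.RF.GoalsL

/-!
PROJECT RF, parts D5 and F in the language of Pool.Agent.Helper47.RF.Core.
-/

open Quaternion MeasureTheory

namespace Pool.Agent.Helper64.RF

open Pool.Agent.Helper47.RF (MF IsMetric Sm E ip eps gdist gvol PinchedAt)

/-- `A` is an orthonormal frame at `x` and `N` the (symmetric) curvature operator in it:
`Rm(A_c,A_d,A_b,A_f) = - Σ eps c d l N l k eps k b f` (Core's `Rm g i j k l = g(R(E_i,E_j)E_k,E_l)`). -/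
structure FrN (gm : MF) (x : ℍ[ℝ]) (A : Fin 3 → Fin 3 → ℝ) (N : Matrix (Fin 3) (Fin 3) ℝ) :
    Prop where
  orth : ∀ a b, ip gm x (A a) (A b) = if a = b then 1 else 0
  symm : ∀ i j, N i j = N j i
  curv : ∀ c d b f, ∑ i, ∑ j, ∑ k, ∑ l,
    Pool.Agent.Helper47.RF.Rm gm i j k l x * A c i * A d j * A b k * A f l =
      - ∑ l, ∑ k, eps c d l * N l k * eps k b f

/-- **M-COP.** FrN implies Orth and CurvOp for toG, toC (from LNK).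
Proof: `toG gm x a b = ip gm x a b = Σ gm i j a_i b_j`, and by LNK
`toG gm x (Rm (toC gm) x (A c) (A d) (A b)) (A f) = Σ Rup i j k m A_ci A_dj A_bk gm m l A_fl`
which is the left hand side of FrN.curv (Core's Rm is Rup lowered; gm symmetric). -/
def COP : Prop :=
  ∀ gm : MF, IsMetric gm → ∀ x : ℍ[ℝ], x ≠ 0 → ∀ A N, FrN gm x A N →
    Orth (toG gm) x A ∧ CurvOp (toG gm) (toC gm) x A N

/-- **M-PIN.** Pinching in terms of the curvature operator (x ≠ 0 not needed).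
Proof.  For an orthonormal basis (n,p,q) of R^3 put u = Σ p_a A_a, v = Σ q_a A_a: linearly
independent, ar = 1, and curv gm x u v = Σ Rm i j k l u_i v_j v_k u_l =
Σ p_c q_d q_b p_f (- Σ eps c d l N l k eps k b f) = (p×q)ᵀ N (p×q) = nᵀ N n (p × q = ± n).  So
nᵀNn = sec of a plane > 0, and δ pᵀNp < nᵀNn, δ qᵀNq < nᵀNn by PinchedAt; adding
(tr N = nᵀNn + pᵀNp + qᵀNq): δ tr N ≤ (δ + 2) nᵀNn.  General n by scaling. -/
def PIN : Prop :=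
  ∀ gm : MF, IsMetric gm → ∀ (x : ℍ[ℝ]) (δ : ℝ), 0 < δ → PinchedAt δ gm x → ∀ A N, FrN gm x A N →
    0 < N.trace ∧ ∀ n : Fin 3 → ℝ,
      δ / (δ + 2) * N.trace * (∑ i, n i ^ 2) ≤ ∑ i, ∑ j, N i j * n i * n j

/-- **M-FDG.** Part D5 for matrix fields (from LNK, COP, RIC, DIAM, LKD).
Proof.  g = toG gm, G = toC gm.  Sm s gives SS s; Ed v s x = Σ v_i E_i s x.  Given v, with
v = Σ w_a A_a (A a basis): |Ed v s| = |Σ w_a (Σ_i A_ai E_i s)| ≤ |w| sqrt(Σ_a (..)²) ≤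
sqrt (g v v) * (η Q sqrt Q).  Where Q/2 ≤ s x: RIC with lam = s x/3 ≥ Q/6, mu = Q/72 gives RicGe with
2 lam - 6 mu ≥ Q/3 - Q/12 = Q/4.  DIAM gives s ≥ (1-11η)Q and curves with energy < 121/Q; LKD:
gdist ≤ sqrt(121/Q) = 11/sqrt Q. -/
def FDG : Prop :=
  ∀ gm : MF, IsMetric gm → ∀ (s : ℍ[ℝ] → ℝ) (Q η : ℝ) (p : ℍ[ℝ]), Sm s → 0 < Q → 0 ≤ η →
    η ≤ 1 / 22 → p ≠ 0 → s p = Q →
    (∀ x : ℍ[ℝ], x ≠ 0 → ∃ A N, FrN gm x A N ∧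
      (∑ a, (∑ i, A a i * E i s x) ^ 2 ≤ (η * (Q * Real.sqrt Q)) ^ 2) ∧
      ∀ i j, |N i j - (if i = j then s x / 3 else 0)| ≤ Q / 72) →
    (∀ x : ℍ[ℝ], x ≠ 0 → (1 - 11 * η) * Q ≤ s x) ∧
    ∀ x y : ℍ[ℝ], ‖x‖ = 1 → ‖y‖ = 1 → gdist gm x y ≤ 11 / Real.sqrt Q

/-- **M-FFG.** Part F for matrix fields (from LNK, COP, CRVB, FIN).
Proof.  g = toG gm, G = toC gm, `ip gm x v v = g x v v`, `sq v = Σ v_i²`.  η' from FIN (c0,C0), K from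
CRVB, η = η'/K: Bds g G c0 C0 η' holds; gmat (toG gm) = gm (LNK), so
gvol gm = 4 ∫ sqrt det ≥ 4 * vol(ball)/4. -/
def FFG : Prop :=
  ∀ c0 C0 : ℝ, 0 < c0 → 0 < C0 → ∃ η : ℝ, 0 < η ∧ ∀ gm : MF, IsMetric gm →
    (∀ x : ℍ[ℝ], x ≠ 0 → ∀ v : Fin 3 → ℝ,
      c0 * ∑ i, v i ^ 2 ≤ ip gm x v v ∧ ip gm x v v ≤ C0 * ∑ i, v i ^ 2) →
    (∀ x : ℍ[ℝ], x ≠ 0 → ∃ A N, FrN gm x A N ∧
      ∀ i j, |N i j - (if i = j then 1 else 0)| ≤ η) →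
    (volume (Metric.ball (0 : ℍ[ℝ]) 1)).toReal ≤ gvol gm ∧
      0 < (volume (Metric.ball (0 : ℍ[ℝ]) 1)).toReal

end Pool.Agent.Helper64.RF
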