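import Pool.Agent.Helper97.RF.LODE
import Pool.Agent.Helper69.RF.CRV
import Pool.Agent.Helper60.RF.REP
import Pool.Agent.Helper75.RF.CONT
import Pool.Agent.Helper77.RF.ID2
import Pool.Agent.Helper49.RF.TAY
import Pool.Agent.Helper56.RF.SV
import Pool.Agent.Helper42.RF.PAR
import Pool.Agent.Helper32.RF.MYB
import Pool.Agent.Helper85.RF.MY
import Pool.Agent.Helper8.RF.DIAM
import Pool.Agent.Helper31.RF.CAY
import Pool.Agent.Helper90.RF.NEM
import Pool.Agent.Helper38.RF.CONN
import Pool.Agent.Helper2.RF.LSD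
import Pool.Agent.Helper54.RF.RAD
import Pool.Agent.Helper97.RF.PEX
import Pool.Agent.Helper93.RF.DEV
import Pool.Agent.Helper32.RF.JAC
import Pool.Agent.Helper5.RF.DGE
import Pool.Agent.Helper9.RF.BDR
import Pool.Agent.Helper49.RF.NE1
import Pool.Agent.Helper60.RF.TOP
import Pool.Agent.Helper55.RF.HALF
import Pool.Agent.Helper42.RF.FIN
import Pool.Agent.Helper67.RF.LNK
import Pool.Agent.Helper9.RF.CRVB
import Pool.Agent.Helper61.RF.LKD
import Pool.Agent.Helper40.RF.RIC
import Pool.Agent.Helper61.RF.COP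
import Pool.Agent.Helper9.RF.PIN
import Pool.Agent.Helper40.RF.FDG
import Pool.Agent.Helper61.RF.FFG
import Pool.Agent.Helper58.RF.NEE

namespace Pool.Agent.Helper64.RF

open Pool.Agent

theorem my_done : MY := Helper85.RF.my Helper69.RF.crv (Helper75.RF.cont Helper69.RF.crv)
  (Helper32.RF.myb Helper69.RF.crv Helper60.RF.rep (Helper56.RF.sv Helper77.RF.id2 Helper49.RF.tay)
    (Helper42.RF.par Helper97.RF.lode))

theorem diam_done : DIAM := Helper8.RF.diam my_done

theorem dev_done : DEV := Helper93.RF.dev Helper31.RF.cay (Helper38.RF.con Helper31.RF.cay)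
  (Helper97.RF.pex Helper31.RF.cay (Helper2.RF.lsd Helper90.RF.nem)) Helper54.RF.rad

theorem fin_of (nee : NEE) : FIN := Helper42.RF.fin Helper31.RF.cay dev_done
  (Helper32.RF.jac Helper31.RF.cay) (Helper9.RF.bdr Helper31.RF.cay) nee Helper60.RF.top
  Helper55.RF.half Helper5.RF.dge

theorem cop_done : COP := Helper61.RF.cop Helper67.RF.lnk

theorem fdg_done : FDG := Helper40.RF.fdg Helper67.RF.lnk cop_done Helper40.RF.ric diam_done
  Helper61.RF.lkd

theorem ffg_of (nee : NEE) : FFG := Helper61.RF.ffg Helper67.RF.lnk cop_done Helper9.RF.crvb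
  (fin_of nee)

theorem pin_done : PIN := Helper9.RF.pin

theorem nee_done : NEE := Helper58.RF.nee Helper31.RF.cay Helper49.RF.ne1 Helper5.RF.dge

theorem fin_done : FIN := fin_of nee_done

theorem ffg_done : FFG := ffg_of nee_done

end Pool.Agent.Helper64.RF
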